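import Pool.Agent.K4H76.LR2.HProb

/-!
# Local sparsity, degrees and maximum degree: independent edges
-/

set_option autoImplicit false
set_option linter.unusedSectionVars false

namespace Pool.Agent.K4H76.LR2

open Finset Pool.Agent.H162R2.Sparse Pool.Agent.K4H76.LR

section
variable {n : ℕ}

/-- expected degree -/
noncomputable def lam (q : Ed n → ℝ) (v : Fin n) : ℝ := ∑ e ∈ st v (univ.erase v), q e

theorem lam_nonneg (q : Ed n → ℝ) (h0 : ∀ i, 0 ≤ q i) (v : Fin n) : 0 ≤ lam q v :=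
  Finset.sum_nonneg (fun i _ => h0 i)

theorem st_erase_card (v : Fin n) : (st v (univ.erase v)).card ≤ n :=
  (card_st_le v (univ.erase v)).trans ((card_le_card (erase_subset _ _)).trans
      (by rw [card_univ, Fintype.card_fin]))

theorem lam_le (q : Ed n → ℝ) (P : ℝ) (hP0 : 0 ≤ P) (hP : ∀ i, q i ≤ P) (v : Fin n) :
    lam q v ≤ n * P := by
  unfold lam
  calc ∑ e ∈ st v (univ.erase v), q e ≤ ∑ _e ∈ st v (univ.erase v), P :=
        Finset.sum_le_sum (fun i _ => hP i)
    _ = (st v (univ.erase v)).card * P := by rw [Finset.sum_const, nsmul_eq_mul]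
    _ ≤ n * P := by
        apply mul_le_mul_of_nonneg_right _ hP0
        exact_mod_cast st_erase_card v

theorem local_sparse (q : Ed n → ℝ) (h0 : ∀ i, 0 ≤ q i) (h1 : ∀ i, q i ≤ 1) (b N : ℕ)
    (hb : 0 < b) (p r : ℝ) (hp0 : 0 ≤ p) (hp : ∀ i, q i ≤ p)
    (hr0 : 0 ≤ r) (hr : r ≤ 1 / 2)
    (h : ∀ s : ℕ, 1 ≤ s → s ≤ N → Real.exp 1 * n / s * (Real.exp 1 * s * p / (2 * b)) ^ b ≤ r) :
    Pr (wq q) (fun ω => ∃ S : Finset (Fin n), 1 ≤ S.card ∧ S.card ≤ N ∧
      b * S.card ≤ cn (ins S) ω) ≤ 2 * r := by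
  classical
  have hw := wq_wt q h0 h1
  have h2 : Pr (wq q) (fun ω => ∃ S : Finset (Fin n), 1 ≤ S.card ∧ S.card ≤ N ∧
      b * S.card ≤ cn (ins S) ω) ≤ Pr (wq q) (fun ω => ∃ s ∈ Finset.Icc 1 N,
      ∃ S ∈ (univ : Finset (Fin n)).powersetCard s, b * s ≤ cn (ins S) ω) := by
    apply Pr_mono hw
    rintro ω ⟨S, hS1, hS2, hS3⟩
    exact ⟨S.card, mem_Icc.2 ⟨hS1, hS2⟩, S, mem_powersetCard.2 ⟨subset_univ _, rfl⟩, hS3⟩
  refine h2.trans ((Pr_exists _ hw (fun s ω => ∃ S ∈ (univ : Finset (Fin n)).powersetCard s,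
    b * s ≤ cn (ins S) ω)).trans ?_)
  refine le_trans (Finset.sum_le_sum ?_) (geom_le r hr0 hr N)
  intro s hs
  rw [mem_Icc] at hs
  refine (Pr_exists _ hw (fun S ω => b * s ≤ cn (ins S) ω)).trans ?_
  have hs0 : (0 : ℝ) < s := by
    have : 0 < s := by omega
    exact_mod_cast this
  have hb0 : (0 : ℝ) < b := by exact_mod_cast hb
  have h3 : ∀ S ∈ (univ : Finset (Fin n)).powersetCard s,
      Pr (wq q) (fun ω => b * s ≤ cn (ins S) ω) ≤
        ((Real.exp 1 * s * p / (2 * b)) ^ b) ^ s := by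
    intro S hS
    have hSc := (mem_powersetCard.1 hS).2
    refine ((cn_le_es q h0 h1 (ins S) (b * s)).trans
      (es_le_choose q h0 p hp (ins S) (b * s))).trans ?_
    have h4 : ((ins S).card.choose (b * s) : ℝ) ≤ ((s.choose 2).choose (b * s) : ℝ) := by
      have := card_ins S
      rw [hSc] at this
      exact_mod_cast Nat.choose_le_choose _ this
    have h5 := choose_le_exp (s.choose 2) (b * s) (Nat.mul_pos hb (by omega))
    have h6 : ((s.choose 2 : ℕ) : ℝ) ≤ s ^ 2 / 2 := by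
      have := Nat.choose_le_pow_div (α := ℝ) 2 s
      simpa using this
    have h7 : Real.exp 1 * ((s.choose 2 : ℕ) : ℝ) / ((b * s : ℕ) : ℝ) ≤
        Real.exp 1 * s / (2 * b) := by
      push_cast
      rw [div_le_div_iff₀ (by positivity) (by positivity)]
      have : Real.exp 1 * ((s.choose 2 : ℕ) : ℝ) ≤ Real.exp 1 * (s ^ 2 / 2) := by gcongr
      nlinarith
    calc ((ins S).card.choose (b * s) : ℝ) * p ^ (b * s) ≤
          (Real.exp 1 * ((s.choose 2 : ℕ) : ℝ) / ((b * s : ℕ) : ℝ)) ^ (b * s) * p ^ (b * s) := by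
          gcongr
          exact h4.trans h5
      _ ≤ (Real.exp 1 * s / (2 * b)) ^ (b * s) * p ^ (b * s) := by gcongr
      _ = ((Real.exp 1 * s * p / (2 * b)) ^ b) ^ s := by
          rw [← mul_pow, pow_mul]
          congr 2
          ring
  refine (Finset.sum_le_sum h3).trans ?_
  rw [Finset.sum_const, card_powersetCard, nsmul_eq_mul, card_univ, Fintype.card_fin]
  have h8 := choose_le_exp n s (by omega)
  calc ((n.choose s : ℕ) : ℝ) * ((Real.exp 1 * s * p / (2 * b)) ^ b) ^ s ≤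
        (Real.exp 1 * n / s) ^ s * ((Real.exp 1 * s * p / (2 * b)) ^ b) ^ s := by gcongr
    _ = (Real.exp 1 * n / s * (Real.exp 1 * s * p / (2 * b)) ^ b) ^ s := by rw [← mul_pow]
    _ ≤ r ^ s := by
        apply pow_le_pow_left₀ (by positivity)
        exact h s hs.1 hs.2

theorem deg_upper (q : Ed n → ℝ) (h0 : ∀ i, 0 ≤ q i) (h1 : ∀ i, q i ≤ 1) (M a : ℝ) (hM : 0 < M)
    (ha : 0 ≤ a) (haM : a ≤ 2 * M) (v : Fin n) (hv : lam q v ≤ M) :
    Pr (wq q) (fun ω => M + a ≤ dg (Gr ω) v) ≤ Real.exp (-(a ^ 2) / (4 * M)) := by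
  have hw := wq_wt q h0 h1
  have h2 := upper hw (st v (univ.erase v)) (fun _ b => b = true) M a hM ha haM (by
    rw [Finset.sum_congr rfl (fun i _ => P1_wq q i)]
    exact hv)
  refine le_trans (Pr_mono hw ?_) h2
  intro ω h
  refine h.trans ?_
  rw [← cn_eq]
  exact_mod_cast dg_le_cn v ω

theorem deg_upper' (q : Ed n → ℝ) (h0 : ∀ i, 0 ≤ q i) (h1 : ∀ i, q i ≤ 1) (k : ℕ) (v : Fin n) :
    Pr (wq q) (fun ω => k ≤ dg (Gr ω) v) ≤ (lam q v) ^ k / k.factorial := by
  have hw := wq_wt q h0 h1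
  refine le_trans (Pr_mono hw (Q := fun ω => k ≤ cn (st v (univ.erase v)) ω)
    (fun ω h => le_trans h (dg_le_cn v ω))) ?_
  exact (cn_le_es q h0 h1 _ k).trans (es_up q h0 _ k)

/-- few vertices of large degree -/
theorem few_large (q : Ed n → ℝ) (h0 : ∀ i, 0 ≤ q i) (h1 : ∀ i, q i ≤ 1) (R : Finset (Fin n))
    (x ρ c : ℝ) (hc : 0 < c) (hρ : 0 ≤ ρ)
    (h : ∀ v ∈ R, Pr (wq q) (fun ω => x ≤ dg (Gr ω) v) ≤ ρ) :
    Pr (wq q) (fun ω => c ≤ ((R.filter (fun v : Fin n => x ≤ dg (Gr ω) v)).card : ℝ)) ≤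
      n * ρ / c := by
  classical
  have hw := wq_wt q h0 h1
  refine (markov hw _ (fun ω => ((R.filter (fun v : Fin n => x ≤ dg (Gr ω) v)).card : ℝ)) c hc
    (fun ω => Nat.cast_nonneg _) (fun ω h => h)).trans ?_
  gcongr
  have h3 : (fun ω : Ed n → Bool => ((R.filter (fun v : Fin n => x ≤ dg (Gr ω) v)).card : ℝ)) =
      fun ω => ∑ v ∈ R, if x ≤ dg (Gr ω) v then (1 : ℝ) else 0 := by
    funext ω
    rw [Finset.sum_boole]
  rw [h3, Ex_sum R _ (fun v ω => if x ≤ dg (Gr ω) v then (1 : ℝ) else 0)]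
  calc ∑ v ∈ R, Ex (wq q) (fun ω => if x ≤ dg (Gr ω) v then (1 : ℝ) else 0) ≤
        ∑ _v ∈ R, ρ := by
        apply Finset.sum_le_sum
        intro v hv
        refine le_trans (le_of_eq ?_) (h v hv)
        unfold Pr
        congr!
    _ = R.card * ρ := by rw [Finset.sum_const, nsmul_eq_mul]
    _ ≤ n * ρ := by
        apply mul_le_mul_of_nonneg_right _ hρ
        have := card_le_univ R
        rw [Fintype.card_fin] at this
        exact_mod_cast this

theorem max_deg (q : Ed n → ℝ) (h0 : ∀ i, 0 ≤ q i) (h1 : ∀ i, q i ≤ 1) (A : Finset (Fin n))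
    (k : ℕ) (x : ℝ) (F : Fin n → Finset (Ed n)) (hF : ∀ v, F v ⊆ st v Aᶜ)
    (hx : ∀ v ∈ A, x ≤ es q (F v) k * ∏ i ∈ F v, (1 - q i)) :
    Pr (wq q) (fun ω => ∀ v : Fin n, dg (Gr ω) v < k) ≤ Real.exp (-(A.card * x)) := by
  classical
  have hw := wq_wt q h0 h1
  have hmono : ∀ v (ω : Ed n → Bool), cn (F v) ω ≤ cn (st v Aᶜ) ω := by
    intro v ω
    unfold cn
    exact card_le_card (filter_subset_filter _ (hF v))
  have h2 : Pr (wq q) (fun ω => ∀ v : Fin n, dg (Gr ω) v < k) ≤
      Pr (wq q) (fun ω => ∀ v ∈ A, cn (F v) ω < k) := by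
    apply Pr_mono hw
    intro ω h v _
    exact lt_of_le_of_lt ((hmono v ω).trans (cn_st_le v Aᶜ ω)) (h v)
  refine h2.trans ?_
  rw [Pr_forall_indep hw (fun v => F v) (fun v ω => cn (F v) ω < k)]
  · have h3 : ∀ v ∈ A, Pr (wq q) (fun ω => cn (F v) ω < k) ≤ Real.exp (-x) := by
      intro v hv
      have h4 : Pr (wq q) (fun ω => cn (F v) ω < k) =
          1 - Pr (wq q) (fun ω => k ≤ cn (F v) ω) := by
        rw [← Pr_not hw]
        congr 1
        funext ω
        rw [not_le]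
      rw [h4]
      have h5 := es_le_cn q h0 h1 (F v) k
      have h6 := Real.add_one_le_exp (-x)
      have h7 := hx v hv
      linarith
    calc ∏ v ∈ A, Pr (wq q) (fun ω => cn (F v) ω < k) ≤ ∏ _v ∈ A, Real.exp (-x) := by
          apply Finset.prod_le_prod
          · intro v _
            exact Pr_nonneg hw _
          · exact h3
      _ = Real.exp (-(A.card * x)) := by
          rw [Finset.prod_const, ← Real.exp_nat_mul]
          congr 1
          ring
  · intro v ω ω' h
    unfold cn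
    have : (F v).filter (fun i => ω i = true) = (F v).filter (fun i => ω' i = true) := by
      apply Finset.filter_congr
      intro i hi
      rw [h i hi]
    rw [this]
  · intro v hv w hw hvw
    rw [disjoint_left]
    intro e he he'
    have he2 := hF v he
    have he2' := hF w he'
    unfold st at he2 he2'
    rw [mem_filter] at he2 he2'
    obtain ⟨_, a, ha, h3⟩ := he2
    obtain ⟨_, b, hb, h4⟩ := he2'
    rw [h3, Sym2.eq_iff] at h4
    rcases h4 with h4 | h4
    · exact hvw h4.1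
    · rw [mem_compl] at hb
      exact hb (h4.1 ▸ hv)

/-- a subset of the pairs with the right expected value -/
theorem exists_F (q : Ed n → ℝ) (h0 : ∀ i, 0 ≤ q i) (P : ℝ) (hP : ∀ i, q i ≤ P) (hP0 : 0 ≤ P)
    (A : Finset (Fin n)) (v : Fin n) (l : ℝ) (hl0 : 0 ≤ l) (hl : l ≤ lam q v) :
    ∃ F ⊆ st v Aᶜ, (∑ e ∈ F, q e ≤ l) ∧ l - (A.card + 1) * P ≤ ∑ e ∈ F, q e := by
  classical
  set C : Finset (Finset (Ed n)) := (st v Aᶜ).powerset.filter (fun F => ∑ e ∈ F, q e ≤ l) with hC
  have hne : C.Nonempty := ⟨∅, by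
    rw [hC, mem_filter]
    refine ⟨mem_powerset.2 (empty_subset _), ?_⟩
    simpa using hl0⟩
  obtain ⟨F, hFC, hmax⟩ := exists_max_image C (fun F => F.card) hne
  rw [hC, mem_filter, mem_powerset] at hFC
  refine ⟨F, hFC.1, hFC.2, ?_⟩
  by_cases hF : F = st v Aᶜ
  · have h2 : lam q v ≤ ∑ e ∈ F, q e + A.card * P := by
      unfold lam
      have h3 : st v (univ.erase v) ⊆ F ∪ st v (A.erase v) := by
        intro e he
        unfold st at he
        rw [mem_filter] at he
        obtain ⟨_, w, hw, he⟩ := he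
        rw [mem_union, hF]
        by_cases hwA : w ∈ A
        · right
          unfold st
          rw [mem_filter]
          exact ⟨mem_univ _, w, mem_erase.2 ⟨(mem_erase.1 hw).1, hwA⟩, he⟩
        · left
          unfold st
          rw [mem_filter]
          exact ⟨mem_univ _, w, mem_compl.2 hwA, he⟩
      calc ∑ e ∈ st v (univ.erase v), q e ≤ ∑ e ∈ F ∪ st v (A.erase v), q e :=
            Finset.sum_le_sum_of_subset_of_nonneg h3 (fun i _ _ => h0 i)
        _ ≤ ∑ e ∈ F, q e + ∑ e ∈ st v (A.erase v), q e := by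
            rw [← Finset.sum_union_inter]
            have : 0 ≤ ∑ e ∈ F ∩ st v (A.erase v), q e := Finset.sum_nonneg (fun i _ => h0 i)
            linarith
        _ ≤ ∑ e ∈ F, q e + A.card * P := by
            gcongr
            calc ∑ e ∈ st v (A.erase v), q e ≤ ∑ _e ∈ st v (A.erase v), P :=
                  Finset.sum_le_sum (fun i _ => hP i)
              _ = (st v (A.erase v)).card * P := by rw [Finset.sum_const, nsmul_eq_mul]
              _ ≤ A.card * P := by
                  apply mul_le_mul_of_nonneg_right _ hP0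
                  exact_mod_cast (card_st_le v (A.erase v)).trans (card_le_card (erase_subset _ _))
    linarith
  · obtain ⟨e, he1, he2⟩ : ∃ e ∈ st v Aᶜ, e ∉ F := by
      by_contra hcon
      push Not at hcon
      exact hF (Subset.antisymm hFC.1 hcon)
    have h3 : l < ∑ e' ∈ insert e F, q e' := by
      by_contra hcon
      push Not at hcon
      have h4 : insert e F ∈ C := by
        rw [hC, mem_filter, mem_powerset]
        exact ⟨insert_subset he1 hFC.1, hcon⟩
      have h5 := hmax _ h4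
      rw [card_insert_of_notMem he2] at h5
      omega
    rw [Finset.sum_insert he2] at h3
    have h4 := hP e
    have h5 : 0 ≤ (A.card : ℝ) * P := by positivity
    linarith

/-- the top `M` vertices -/
theorem exists_top (f : Fin n → ℝ) (M : ℕ) (hM : M ≤ n) :
    ∃ A : Finset (Fin n), A.card = M ∧ ∀ v ∈ A, ∀ w, w ∉ A → f w ≤ f v := by
  classical
  have hne : ((univ : Finset (Fin n)).powersetCard M).Nonempty := by
    rw [powersetCard_nonempty, card_univ, Fintype.card_fin]
    exact hM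
  obtain ⟨A, hA, hmax⟩ := exists_max_image _ (fun A => ∑ v ∈ A, f v) hne
  rw [mem_powersetCard] at hA
  refine ⟨A, hA.2, ?_⟩
  intro v hv w hw
  by_contra hcon
  push Not at hcon
  have hwe : w ∉ A.erase v := fun h => hw (mem_of_mem_erase h)
  have h1 : insert w (A.erase v) ∈ (univ : Finset (Fin n)).powersetCard M := by
    rw [mem_powersetCard]
    refine ⟨subset_univ _, ?_⟩
    rw [card_insert_of_notMem hwe, card_erase_of_mem hv, hA.2]
    have : 0 < A.card := card_pos.2 ⟨v, hv⟩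
    omega
  have h2 := hmax _ h1
  rw [Finset.sum_insert hwe] at h2
  have h3 := Finset.add_sum_erase A f hv
  linarith

end

end Pool.Agent.K4H76.LR2
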