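import Pool.Agent.K4H76.LR2.HGr
import Pool.Agent.K4H76.LR.Reg2
import Pool.Agent.K4H76.LR.Num1

/-!
# The maximum degree is large: independent edges
-/

set_option autoImplicit false
set_option linter.unusedSectionVars false

namespace Pool.Agent.K4H76.LR2

open Finset Pool.Agent.H162R2.Sparse Pool.Agent.K4H76.LR

theorem choose_F {n : ℕ} (q : Ed n → ℝ) (h0 : ∀ i, 0 ≤ q i) (P : ℝ) (hP : ∀ i, q i ≤ P)
    (hP0 : 0 ≤ P) (A : Finset (Fin n)) (l : ℝ) (hl0 : 0 ≤ l) (hA : ∀ v ∈ A, l ≤ lam q v) :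
    ∃ F : Fin n → Finset (Ed n), (∀ v, F v ⊆ st v Aᶜ) ∧ ∀ v ∈ A, (∑ e ∈ F v, q e ≤ l) ∧
      l - (A.card + 1) * P ≤ ∑ e ∈ F v, q e := by
  classical
  have h : ∀ v, ∃ F ⊆ st v Aᶜ, v ∈ A → (∑ e ∈ F, q e ≤ l) ∧
      l - (A.card + 1) * P ≤ ∑ e ∈ F, q e := by
    intro v
    by_cases hv : v ∈ A
    · obtain ⟨F, h1, h2, h3⟩ := exists_F q h0 P hP hP0 A v l hl0 (hA v hv)
      exact ⟨F, h1, fun _ => ⟨h2, h3⟩⟩
    · exact ⟨∅, empty_subset _, fun h => absurd h hv⟩
  choose F h1 h2 using h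
  exact ⟨F, h1, h2⟩

/-- the maximum degree is large: large degrees -/
theorem max1 (g : ℝ) (hg0 : 0 < g) (hg1 : g ≤ 1) (η : ℝ) (hη : 0 < η) : ∃ x₀ : ℝ, ∀ n : ℕ,
    x₀ ≤ Real.log n → ∀ q : Ed n → ℝ, (∀ i, 0 ≤ q i) → (∀ i, q i ≤ 1) →
    (∀ i, q i ≤ Real.exp ((g / 16 - 1) * Real.log n)) → ∀ A : Finset (Fin n),
    A.card = ⌊Real.exp (3 / 4 * Real.log n)⌋₊ → ∀ l : ℝ, Real.log n / 100000 ≤ l →
    l ≤ Real.exp (g / 16 * Real.log n) → (∀ v ∈ A, l ≤ lam q v) →
    ∀ s : ℝ, 0 ≤ s → s ^ 2 = l * Real.log n →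
    Pr (wq q) (fun ω => ∀ v : Fin n, dg (Gr ω) v < ⌈l + s / 2⌉₊) ≤ η := by
  obtain ⟨x1, hx1⟩ := ev_exp (1 / 32) (by norm_num) 161 0
  obtain ⟨x2, hx2⟩ := ev_exp (5 / 32) (by norm_num) (12 * Real.exp 318) 0
  obtain ⟨x3, hx3⟩ := ev_exp (1 / 4) (by norm_num) (2 / η) 0
  refine ⟨max 100000 (max x1 (max x2 x3)), ?_⟩
  intro n hn q h0 h1 hqP A hAm l hl1 hl2 hA s hs0 hs2
  obtain ⟨x, hx⟩ : ∃ x : ℝ, x = Real.log n := ⟨_, rfl⟩
  rw [← hx] at hn hl1 hl2 hs2 hqP hAm
  simp only [max_le_iff] at hn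
  obtain ⟨k0, k1, k2, k3⟩ := hn
  have g1 := hx1 x k1
  have g2 := hx2 x k2
  have g3 := hx3 x k3
  rw [pow_zero, mul_one] at g1 g2 g3
  have hx0 : 0 < x := by linarith
  have hl1' : 1 ≤ l := by linarith
  have hl0 : 0 < l := by linarith
  have hexp : ∀ a b : ℝ, a ≤ b → Real.exp a ≤ Real.exp b := fun a b h => Real.exp_le_exp.2 h
  obtain ⟨P, hP⟩ : ∃ P : ℝ, P = Real.exp ((g / 16 - 1) * x) := ⟨_, rfl⟩
  rw [← hP] at hqP
  have hP0 : 0 ≤ P := by rw [hP]; positivity
  have hsl : s ≤ 317 * l := by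
    rw [← pow_le_pow_iff_left₀ hs0 (by positivity) (by norm_num : 2 ≠ 0), mul_pow, hs2]
    nlinarith
  obtain ⟨k, hk⟩ : ∃ k : ℕ, k = ⌈l + s / 2⌉₊ := ⟨_, rfl⟩
  rw [← hk]
  have hk1 : l + s / 2 ≤ k := by rw [hk]; exact Nat.le_ceil _
  have hk2 : (k : ℝ) < l + s / 2 + 1 := by rw [hk]; exact Nat.ceil_lt_add_one (by linarith)
  have hkpos : 0 < k := by
    have : (0 : ℝ) < k := by linarith
    exact_mod_cast this
  have hk3 : (k : ℝ) ≤ Real.exp (3 / 32 * x) := by
    have e1 : (k : ℝ) ≤ 161 * l := by linarith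
    refine e1.trans ?_
    calc 161 * l ≤ Real.exp (1 / 32 * x) * Real.exp (1 / 16 * x) := by
          have e2 : Real.exp (g / 16 * x) ≤ Real.exp (1 / 16 * x) := by
            apply hexp
            nlinarith
          have e3 : l ≤ Real.exp (1 / 16 * x) := hl2.trans e2
          gcongr
      _ = Real.exp (3 / 32 * x) := by
          rw [← Real.exp_add]
          congr 1
          ring
  obtain ⟨m, hm⟩ : ∃ m : ℕ, m = ⌊Real.exp (3 / 4 * x)⌋₊ := ⟨_, rfl⟩
  rw [← hm] at hAm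
  have hm1 : (m : ℝ) ≤ Real.exp (3 / 4 * x) := by
    rw [hm]
    exact Nat.floor_le (Real.exp_pos _).le
  have h161 : 161 ≤ Real.exp (3 / 4 * x) := g1.trans (hexp _ _ (by linarith))
  have hm2 : Real.exp (3 / 4 * x) / 2 ≤ m := by
    have h2 := Nat.lt_floor_add_one (Real.exp (3 / 4 * x))
    rw [← hm] at h2
    linarith
  have hmk : (m : ℝ) + 1 + k ≤ 3 * Real.exp (3 / 4 * x) := by
    have : Real.exp (3 / 32 * x) ≤ Real.exp (3 / 4 * x) := hexp _ _ (by linarith)
    linarith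
  have hmkP : ((m : ℝ) + 1 + k) * P ≤ 3 * Real.exp (-(3 / 16 * x)) := by
    calc ((m : ℝ) + 1 + k) * P ≤ (3 * Real.exp (3 / 4 * x)) * Real.exp ((g / 16 - 1) * x) := by
          rw [hP]
          gcongr
      _ = 3 * Real.exp (3 / 4 * x + (g / 16 - 1) * x) := by
          rw [Real.exp_add]
          ring
      _ ≤ 3 * Real.exp (-(3 / 16 * x)) := by
          have : Real.exp (3 / 4 * x + (g / 16 - 1) * x) ≤ Real.exp (-(3 / 16 * x)) := by
            apply hexp
            nlinarith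
          linarith
  obtain ⟨θ, hθ⟩ : ∃ θ : ℝ, θ = (m + 1 + k) * P / l := ⟨_, rfl⟩
  have hθ0 : 0 ≤ θ := by rw [hθ]; positivity
  have hkθ : (k : ℝ) * θ ≤ 1 / 2 := by
    have e1 : θ ≤ (m + 1 + k) * P := by
      rw [hθ]
      exact div_le_self (by positivity) hl1'
    calc (k : ℝ) * θ ≤ Real.exp (3 / 32 * x) * (3 * Real.exp (-(3 / 16 * x))) := by
          gcongr
          exact e1.trans hmkP
      _ = 3 * Real.exp (-(3 / 32 * x)) := by
          rw [show Real.exp (3 / 32 * x) * (3 * Real.exp (-(3 / 16 * x))) =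
            3 * (Real.exp (3 / 32 * x) * Real.exp (-(3 / 16 * x))) by ring, ← Real.exp_add]
          congr 2
          ring
      _ ≤ 3 * (1 / 161) := by
          have : Real.exp (-(3 / 32 * x)) ≤ 1 / 161 := by
            rw [Real.exp_neg, ← one_div]
            exact one_div_le_one_div_of_le (by norm_num) (g1.trans (hexp _ _ (by linarith)))
          linarith
      _ ≤ 1 / 2 := by norm_num
  have hθ1 : θ ≤ 1 := by
    have hk1' : (1 : ℝ) ≤ k := by exact_mod_cast hkpos
    nlinarith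
  have hPl : l * P ≤ 1 / 2 := by
    calc l * P ≤ Real.exp (g / 16 * x) * Real.exp ((g / 16 - 1) * x) := by
          rw [hP]
          gcongr
      _ = Real.exp (g / 16 * x + (g / 16 - 1) * x) := by rw [Real.exp_add]
      _ ≤ Real.exp (-(1 / 32 * x)) := by
          apply hexp
          nlinarith
      _ ≤ 1 / 161 := by
          rw [Real.exp_neg, ← one_div]
          exact one_div_le_one_div_of_le (by norm_num) g1
      _ ≤ 1 / 2 := by norm_num
  have hP1 : P ≤ 1 := by
    have : P ≤ l * P := by nlinarith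
    linarith
  obtain ⟨F, hF1, hF2⟩ := choose_F q h0 P hqP hP0 A l hl0.le hA
  have hXlow : ∀ v ∈ A, Real.exp (-(x / 2)) ≤ es q (F v) k * ∏ i ∈ F v, (1 - q i) := by
    intro v hv
    obtain ⟨f1, f2⟩ := hF2 v hv
    rw [hAm] at f2
    have e0 := es_low q h0 P hP0 hqP (F v) (l * (1 - θ)) (mul_nonneg hl0.le (by linarith)) k (by
      have : l * (1 - θ) = l - (m + 1 + k) * P := by
        rw [hθ]
        field_simp
      rw [this]
      linarith)
    have e2 : (1 : ℝ) / 2 ≤ (1 - θ) ^ k := by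
      have := one_add_mul_le_pow (a := -θ) (by linarith) k
      have e : 1 + -θ = 1 - θ := by ring
      rw [e] at this
      linarith
    have e3 : Real.exp (-l) / 2 ≤ ∏ i ∈ F v, (1 - q i) := by
      refine le_trans ?_ (prod_one_sub q h0 P hqP hP1 (F v) ?_)
      · have : Real.exp (-l) ≤ Real.exp (-∑ i ∈ F v, q i) := hexp _ _ (by linarith)
        linarith
      · refine le_trans ?_ hPl
        exact mul_le_mul_of_nonneg_right f1 hP0
    have e6 := bin_low l hl0 k hkpos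
    have e7 : Real.exp (-(x / 4 + 318)) ≤ Real.exp (-((k - l) ^ 2 / l)) := by
      apply hexp
      apply neg_le_neg
      rw [div_le_iff₀ hl0]
      have e8 : (k : ℝ) - l ≤ s / 2 + 1 := by linarith
      have e9 : 0 ≤ (k : ℝ) - l := by linarith
      calc ((k : ℝ) - l) ^ 2 ≤ (s / 2 + 1) ^ 2 := pow_le_pow_left₀ e9 e8 2
        _ = s ^ 2 / 4 + s + 1 := by ring
        _ ≤ (x / 4 + 318) * l := by
            rw [hs2]
            nlinarith
    have e10 : Real.exp 1 * k ≤ 3 * Real.exp (3 / 32 * x) := by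
      have := Real.exp_one_lt_three
      gcongr
    have e11 : Real.exp (-(x / 4 + 318)) / (3 * Real.exp (3 / 32 * x)) ≤
        l ^ k / k.factorial * Real.exp (-l) := by
      refine le_trans ?_ e6
      gcongr
    have hf : (0 : ℝ) < (k.factorial : ℝ) := by exact_mod_cast k.factorial_pos
    rw [mul_pow] at e0
    calc Real.exp (-(x / 2)) ≤ Real.exp (-(x / 4 + 318)) / (3 * Real.exp (3 / 32 * x)) / 4 := by
          rw [le_div_iff₀ (by norm_num), le_div_iff₀ (by positivity)]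
          calc Real.exp (-(x / 2)) * 4 * (3 * Real.exp (3 / 32 * x)) =
                12 * Real.exp 318 * (Real.exp (-(x / 2)) * Real.exp (3 / 32 * x) *
                  Real.exp (-318)) := by
                have : Real.exp 318 * Real.exp (-318) = 1 := by
                  rw [← Real.exp_add, add_neg_cancel, Real.exp_zero]
                calc Real.exp (-(x / 2)) * 4 * (3 * Real.exp (3 / 32 * x)) =
                    12 * (Real.exp (-(x / 2)) * Real.exp (3 / 32 * x)) *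
                      (Real.exp 318 * Real.exp (-318)) := by rw [this]; ring
                  _ = _ := by ring
            _ ≤ Real.exp (5 / 32 * x) * (Real.exp (-(x / 2)) * Real.exp (3 / 32 * x) *
                  Real.exp (-318)) := by gcongr
            _ = Real.exp (5 / 32 * x + (-(x / 2) + 3 / 32 * x + -318)) := by
                rw [Real.exp_add, Real.exp_add, Real.exp_add]
            _ ≤ Real.exp (-(x / 4 + 318)) := by
                apply hexp
                linarith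
      _ ≤ (l ^ k / k.factorial * Real.exp (-l)) / 4 := by gcongr
      _ = (l ^ k * (1 / 2)) / k.factorial * (Real.exp (-l) / 2) := by ring
      _ ≤ (l ^ k * (1 - θ) ^ k / k.factorial) * ∏ i ∈ F v, (1 - q i) := by gcongr
      _ ≤ es q (F v) k * ∏ i ∈ F v, (1 - q i) := by
          apply mul_le_mul_of_nonneg_right e0
          exact Finset.prod_nonneg (fun i _ => by linarith [h1 i])
  have A1 := max_deg q h0 h1 A k (Real.exp (-(x / 2))) F hF1 hXlow
  rw [hAm] at A1
  refine A1.trans ?_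
  have h2 : Real.exp (1 / 4 * x) / 2 ≤ m * Real.exp (-(x / 2)) := by
    calc Real.exp (1 / 4 * x) / 2 = (Real.exp (3 / 4 * x) / 2) * Real.exp (-(x / 2)) := by
          have e : Real.exp (1 / 4 * x) = Real.exp (3 / 4 * x) * Real.exp (-(x / 2)) := by
            rw [← Real.exp_add]
            congr 1
            ring
          rw [e]
          ring
      _ ≤ m * Real.exp (-(x / 2)) := by gcongr
  have h3 : 0 < Real.exp (1 / 4 * x) / 2 := by positivity
  refine (exp_neg_le_inv _ (lt_of_lt_of_le h3 h2)).trans ?_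
  rw [div_le_iff₀ (lt_of_lt_of_le h3 h2)]
  calc (1 : ℝ) = η * (2 / η / 2) := by
        field_simp
    _ ≤ η * (Real.exp (1 / 4 * x) / 2) := by gcongr
    _ ≤ η * (m * Real.exp (-(x / 2))) := by gcongr

end Pool.Agent.K4H76.LR2
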