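import Pool.Agent.K4H76.LR2.HMax

/-!
# The maximum degree is large: small degrees
-/

set_option autoImplicit false
set_option linter.unusedSectionVars false

namespace Pool.Agent.K4H76.LR2

open Finset Pool.Agent.H162R2.Sparse Pool.Agent.K4H76.LR

theorem max2 (η : ℝ) (hη : 0 < η) : ∃ x₀ : ℝ, ∀ n : ℕ,
    x₀ ≤ Real.log n → ∀ q : Ed n → ℝ, (∀ i, 0 ≤ q i) → (∀ i, q i ≤ 1) →
    (∀ i, q i ≤ Real.exp (-(15 / 16 * Real.log n))) → ∀ A : Finset (Fin n),
    A.card = ⌊Real.exp (3 / 4 * Real.log n)⌋₊ → ∀ l : ℝ,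
    Real.exp (-(1 / 20000 * Real.log n)) ≤ l → l ≤ Real.log n / 100000 →
    (∀ v ∈ A, l ≤ lam q v) → ∀ d : ℕ, (d : ℝ) ≤ Real.log n / 45 →
    Real.exp (-(Real.log n / 8)) < l ^ d / d.factorial →
    Pr (wq q) (fun ω => ∀ v : Fin n, dg (Gr ω) v < 2 * d + 8) ≤ η := by
  obtain ⟨x2, hx2⟩ := ev_exp (1 / 20000) (by norm_num) 33 1
  obtain ⟨x3, hx3⟩ := ev_exp (1 / 4) (by norm_num) (2 / η) 0
  refine ⟨max 2000 (max x2 x3), ?_⟩
  intro n hn q h0 h1 hqP A hAm l hl1 hl2 hA d d2 d4
  obtain ⟨x, hx⟩ : ∃ x : ℝ, x = Real.log n := ⟨_, rfl⟩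
  rw [← hx] at hn hl1 hl2 hqP hAm d2 d4
  simp only [max_le_iff] at hn
  obtain ⟨k0, k2, k3⟩ := hn
  have g2 := hx2 x k2
  have g3 := hx3 x k3
  rw [pow_one] at g2
  rw [pow_zero, mul_one] at g3
  have hx0 : 0 < x := by linarith
  have hlpos : 0 < l := lt_of_lt_of_le (Real.exp_pos _) hl1
  have hexp : ∀ a b : ℝ, a ≤ b → Real.exp a ≤ Real.exp b := fun a b h => Real.exp_le_exp.2 h
  obtain ⟨P, hP⟩ : ∃ P : ℝ, P = Real.exp (-(15 / 16 * x)) := ⟨_, rfl⟩
  rw [← hP] at hqP
  have hP0 : 0 ≤ P := by rw [hP]; positivity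
  obtain ⟨m, hm⟩ : ∃ m : ℕ, m = ⌊Real.exp (3 / 4 * x)⌋₊ := ⟨_, rfl⟩
  rw [← hm] at hAm
  have hm1 : (m : ℝ) ≤ Real.exp (3 / 4 * x) := by
    rw [hm]
    exact Nat.floor_le (Real.exp_pos _).le
  have hbig : 33 * x ≤ Real.exp (3 / 4 * x) := g2.trans (hexp _ _ (by linarith))
  have hm2 : Real.exp (3 / 4 * x) / 2 ≤ m := by
    have h2 := Nat.lt_floor_add_one (Real.exp (3 / 4 * x))
    rw [← hm] at h2
    linarith
  have hk : ((2 * d + 8 : ℕ) : ℝ) ≤ Real.exp (3 / 4 * x) := by
    push_cast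
    linarith
  have h66 : 8 ≤ Real.exp (1 / 20000 * x) := by linarith
  have hmkP : ((m : ℝ) + 1 + (2 * d + 8 : ℕ)) * P ≤ 3 / 4 * l := by
    have e1 : ((m : ℝ) + 1 + (2 * d + 8 : ℕ)) ≤ 3 * Real.exp (3 / 4 * x) := by linarith
    calc ((m : ℝ) + 1 + (2 * d + 8 : ℕ)) * P ≤
          (3 * Real.exp (3 / 4 * x)) * Real.exp (-(15 / 16 * x)) := by
          rw [hP]
          gcongr
      _ = 3 / 4 * (4 * Real.exp (-(3 / 16 * x))) := by
          rw [show (3 * Real.exp (3 / 4 * x)) * Real.exp (-(15 / 16 * x)) =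
            3 * (Real.exp (3 / 4 * x) * Real.exp (-(15 / 16 * x))) by ring, ← Real.exp_add]
          rw [show 3 / 4 * x + -(15 / 16 * x) = -(3 / 16 * x) by ring]
          ring
      _ ≤ 3 / 4 * (Real.exp (1 / 20000 * x) * Real.exp (-(3 / 16 * x))) := by
          have : 0 < Real.exp (-(3 / 16 * x)) := Real.exp_pos _
          nlinarith
      _ ≤ 3 / 4 * Real.exp (-(1 / 20000 * x)) := by
          rw [← Real.exp_add]
          have : Real.exp (1 / 20000 * x + -(3 / 16 * x)) ≤ Real.exp (-(1 / 20000 * x)) := by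
            apply hexp
            linarith
          linarith
      _ ≤ 3 / 4 * l := by linarith
  have hPl : l * P ≤ 1 / 2 := by
    calc l * P ≤ (x / 100000) * Real.exp (-(15 / 16 * x)) := by
          rw [hP]
          gcongr
      _ ≤ Real.exp (1 / 20000 * x) * Real.exp (-(15 / 16 * x)) := by
          gcongr
          linarith
      _ ≤ Real.exp (-(1 / 20000 * x)) := by
          rw [← Real.exp_add]
          apply hexp
          linarith
      _ ≤ 1 / 8 := by
          rw [Real.exp_neg, ← one_div]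
          exact one_div_le_one_div_of_le (by norm_num) h66
      _ ≤ 1 / 2 := by norm_num
  have hP1 : P ≤ 1 := by
    rw [hP, Real.exp_le_one_iff]
    linarith
  obtain ⟨F, hF1, hF2⟩ := choose_F q h0 P hqP hP0 A l hlpos.le hA
  have hXlow : ∀ v ∈ A, Real.exp (-(x / 2)) ≤ es q (F v) (2 * d + 8) * ∏ i ∈ F v, (1 - q i) := by
    intro v hv
    obtain ⟨f1, f2⟩ := hF2 v hv
    rw [hAm] at f2
    have e0 := es_low q h0 P hP0 hqP (F v) (l / 4) (by positivity) (2 * d + 8) (by linarith)
    have e1 := fact_bound l hlpos.le d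
    have e3 : Real.exp (-l) / 2 ≤ ∏ i ∈ F v, (1 - q i) := by
      refine le_trans ?_ (prod_one_sub q h0 P hqP hP1 (F v) ?_)
      · have : Real.exp (-l) ≤ Real.exp (-∑ i ∈ F v, q i) := hexp _ _ (by linarith)
        linarith
      · refine le_trans ?_ hPl
        exact mul_le_mul_of_nonneg_right f1 hP0
    have e4 : Real.exp (-(1 / 10000 * x)) ≤ l / (4 * (2 * d + 8)) := by
      rw [le_div_iff₀ (by positivity)]
      have e5 : 4 * (2 * (d : ℝ) + 8) ≤ Real.exp (1 / 20000 * x) := by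
        refine le_trans ?_ g2
        linarith
      calc Real.exp (-(1 / 10000 * x)) * (4 * (2 * d + 8)) ≤
            Real.exp (-(1 / 10000 * x)) * Real.exp (1 / 20000 * x) := by gcongr
        _ = Real.exp (-(1 / 20000 * x)) := by
            rw [← Real.exp_add]
            congr 1
            ring
        _ ≤ l := hl1
    have e6 : Real.exp (-(8 / 10000 * x)) ≤ (l / (4 * (2 * d + 8))) ^ 8 := by
      refine le_trans (le_of_eq ?_) (pow_le_pow_left₀ (Real.exp_pos _).le e4 8)
      rw [← Real.exp_nat_mul]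
      congr 1
      push_cast
      ring
    have e7 : Real.exp (-(x / 4)) ≤ (l ^ d / d.factorial) ^ 2 := by
      refine le_trans (le_of_eq ?_) (pow_le_pow_left₀ (Real.exp_pos _).le d4.le 2)
      rw [← Real.exp_nat_mul]
      congr 1
      push_cast
      ring
    have e8 : Real.exp (-(x / 4 + x / 10)) ≤ (l ^ d / d.factorial) ^ 2 / 64 ^ d := by
      rw [le_div_iff₀ (by positivity)]
      calc Real.exp (-(x / 4 + x / 10)) * 64 ^ d ≤
            Real.exp (-(x / 4 + x / 10)) * Real.exp (x / 10) := by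
            gcongr
            exact pow64 d x d2
        _ = Real.exp (-(x / 4)) := by
            rw [← Real.exp_add]
            congr 1
            ring
        _ ≤ _ := e7
    have e9 : Real.exp (-(8 / 10000 * x)) * Real.exp (-(x / 4 + x / 10)) ≤
        (l / 4) ^ (2 * d + 8) / (2 * d + 8).factorial := by
      refine le_trans ?_ e1
      gcongr
    have e10 : Real.exp (-(x / 100)) ≤ ∏ i ∈ F v, (1 - q i) := by
      refine le_trans ?_ e3
      rw [le_div_iff₀ (by norm_num)]
      calc Real.exp (-(x / 100)) * 2 ≤ Real.exp (-(x / 100)) * Real.exp (1 / 20000 * x) := by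
            gcongr
            linarith
        _ = Real.exp (-(x / 100) + 1 / 20000 * x) := by rw [Real.exp_add]
        _ ≤ Real.exp (-l) := by
            apply hexp
            linarith
    calc Real.exp (-(x / 2)) ≤ (Real.exp (-(8 / 10000 * x)) * Real.exp (-(x / 4 + x / 10))) *
          Real.exp (-(x / 100)) := by
          rw [← Real.exp_add, ← Real.exp_add]
          apply hexp
          linarith
      _ ≤ ((l / 4) ^ (2 * d + 8) / (2 * d + 8).factorial) * ∏ i ∈ F v, (1 - q i) := by gcongr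
      _ ≤ _ := by
          apply mul_le_mul_of_nonneg_right e0
          exact Finset.prod_nonneg (fun i _ => by linarith [h1 i])
  have A1 := max_deg q h0 h1 A (2 * d + 8) (Real.exp (-(x / 2))) F hF1 hXlow
  rw [hAm] at A1
  refine A1.trans ?_
  have h2 : Real.exp (1 / 4 * x) / 2 ≤ m * Real.exp (-(x / 2)) := by
    calc Real.exp (1 / 4 * x) / 2 = (Real.exp (3 / 4 * x) / 2) * Real.exp (-(x / 2)) := by
          have e : Real.exp (1 / 4 * x) = Real.exp (3 / 4 * x) * Real.exp (-(x / 2)) := by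
            rw [← Real.exp_add]
            congr 1
            ring
          rw [e]
          ring
      _ ≤ m * Real.exp (-(x / 2)) := by gcongr
  have h3 : 0 < Real.exp (1 / 4 * x) / 2 := by positivity
  refine (exp_neg_le_inv _ (lt_of_lt_of_le h3 h2)).trans ?_
  rw [div_le_iff₀ (lt_of_lt_of_le h3 h2)]
  calc (1 : ℝ) = η * (2 / η / 2) := by
        field_simp
    _ ≤ η * (Real.exp (1 / 4 * x) / 2) := by gcongr
    _ ≤ η * (m * Real.exp (-(x / 2))) := by gcongr

end Pool.Agent.K4H76.LR2
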