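import Pool.Agent.K4H76.LR.Gnp2

/-!
# Independent coins with different probabilities
-/

set_option autoImplicit false
set_option linter.unusedSectionVars false

namespace Pool.Agent.K4H76.LR2

open Finset Pool.Agent.H162R2.Sparse Pool.Agent.K4H76.LR

section
variable {ι : Type} [Fintype ι] [DecidableEq ι]

/-- weights of independent coins -/
noncomputable def wq (q : ι → ℝ) : ι → Bool → ℝ := fun i b => if b then q i else 1 - q i

theorem wq_wt (q : ι → ℝ) (h0 : ∀ i, 0 ≤ q i) (h1 : ∀ i, q i ≤ 1) : Wt (wq q) := by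
  refine ⟨?_, ?_⟩
  · intro i b
    unfold wq
    have := h0 i
    have := h1 i
    cases b <;> simp <;> linarith
  · intro i
    unfold wq
    simp

theorem P1_wq (q : ι → ℝ) (i : ι) : P1 (wq q) i (fun b => b = true) = q i := by
  unfold P1 wq
  simp

theorem P1_wq' (q : ι → ℝ) (i : ι) : P1 (wq q) i (fun b => b = false) = 1 - q i := by
  unfold P1 wq
  simp

/-- the elementary symmetric function -/
def es (q : ι → ℝ) (F : Finset ι) (k : ℕ) : ℝ := ∑ K ∈ F.powersetCard k, ∏ i ∈ K, q i

theorem es_zero (q : ι → ℝ) (F : Finset ι) : es q F 0 = 1 := by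
  unfold es
  simp

theorem es_nonneg (q : ι → ℝ) (h0 : ∀ i, 0 ≤ q i) (F : Finset ι) (k : ℕ) : 0 ≤ es q F k := by
  unfold es
  exact Finset.sum_nonneg (fun K _ => Finset.prod_nonneg (fun i _ => h0 i))

theorem es_succ (q : ι → ℝ) (F : Finset ι) (k : ℕ) :
    (k + 1 : ℝ) * es q F (k + 1) =
      ∑ K ∈ F.powersetCard k, (∏ i ∈ K, q i) * ∑ i ∈ F \ K, q i := by
  classical
  have h1 : (k + 1 : ℝ) * es q F (k + 1) =
      ∑ K ∈ F.powersetCard (k + 1), ∑ _i ∈ K, ∏ j ∈ K, q j := by
    unfold es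
    rw [Finset.mul_sum]
    apply Finset.sum_congr rfl
    intro K hK
    rw [Finset.sum_const, (mem_powersetCard.1 hK).2, nsmul_eq_mul]
    push_cast
    ring
  rw [h1]
  have h2 : ∑ K ∈ F.powersetCard k, (∏ i ∈ K, q i) * ∑ i ∈ F \ K, q i =
      ∑ K ∈ F.powersetCard k, ∑ i ∈ F \ K, ∏ j ∈ insert i K, q j := by
    apply Finset.sum_congr rfl
    intro K _
    rw [Finset.mul_sum]
    apply Finset.sum_congr rfl
    intro i hi
    rw [Finset.prod_insert (mem_sdiff.1 hi).2]
    ring
  rw [h2, Finset.sum_sigma', Finset.sum_sigma']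
  refine Finset.sum_bij' (fun p _ => ⟨p.1.erase p.2, p.2⟩) (fun p _ => ⟨insert p.2 p.1, p.2⟩)
    ?_ ?_ ?_ ?_ ?_
  · rintro ⟨K, i⟩ hp
    simp only [mem_sigma, mem_powersetCard, mem_sdiff] at hp ⊢
    obtain ⟨⟨hK1, hK2⟩, hi⟩ := hp
    refine ⟨⟨(erase_subset _ _).trans hK1, ?_⟩, hK1 hi, notMem_erase _ _⟩
    rw [card_erase_of_mem hi, hK2]
    omega
  · rintro ⟨K, i⟩ hp
    simp only [mem_sigma, mem_powersetCard, mem_sdiff] at hp ⊢
    obtain ⟨⟨hK1, hK2⟩, hi1, hi2⟩ := hp
    refine ⟨⟨insert_subset hi1 hK1, ?_⟩, mem_insert_self _ _⟩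
    rw [card_insert_of_notMem hi2, hK2]
  · rintro ⟨K, i⟩ hp
    simp only [mem_sigma, mem_powersetCard] at hp
    simp only
    rw [insert_erase hp.2]
  · rintro ⟨K, i⟩ hp
    simp only [mem_sigma, mem_powersetCard, mem_sdiff] at hp
    simp only
    rw [erase_insert hp.2.2]
  · rintro ⟨K, i⟩ hp
    simp only [mem_sigma, mem_powersetCard] at hp
    simp only
    rw [insert_erase hp.2]

theorem es_up (q : ι → ℝ) (h0 : ∀ i, 0 ≤ q i) (F : Finset ι) (k : ℕ) :
    es q F k ≤ (∑ i ∈ F, q i) ^ k / k.factorial := by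
  have hs : 0 ≤ ∑ i ∈ F, q i := Finset.sum_nonneg (fun i _ => h0 i)
  induction k with
  | zero => simp [es_zero]
  | succ k ih =>
      have hk : (0 : ℝ) < k + 1 := by positivity
      have hf : (0 : ℝ) < (k.factorial : ℝ) := by exact_mod_cast k.factorial_pos
      have h1 : (k + 1 : ℝ) * es q F (k + 1) ≤ es q F k * ∑ i ∈ F, q i := by
        rw [es_succ]
        unfold es
        rw [Finset.sum_mul]
        apply Finset.sum_le_sum
        intro K _
        apply mul_le_mul_of_nonneg_left _ (Finset.prod_nonneg (fun i _ => h0 i))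
        exact Finset.sum_le_sum_of_subset_of_nonneg sdiff_subset (fun i _ _ => h0 i)
      have h2 : es q F k * ∑ i ∈ F, q i ≤
          (∑ i ∈ F, q i) ^ k / k.factorial * ∑ i ∈ F, q i := mul_le_mul_of_nonneg_right ih hs
      rw [Nat.factorial_succ]
      push_cast
      rw [le_div_iff₀ (by positivity)]
      calc es q F (k + 1) * ((k + 1) * k.factorial) = ((k + 1 : ℝ) * es q F (k + 1)) * k.factorial := by
            ring
        _ ≤ ((∑ i ∈ F, q i) ^ k / k.factorial * ∑ i ∈ F, q i) * k.factorial := by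
            apply mul_le_mul_of_nonneg_right (h1.trans h2) hf.le
        _ = (∑ i ∈ F, q i) ^ (k + 1) := by
            rw [pow_succ]
            field_simp

theorem es_low (q : ι → ℝ) (h0 : ∀ i, 0 ≤ q i) (P : ℝ) (hP0 : 0 ≤ P) (hP : ∀ i, q i ≤ P)
    (F : Finset ι)
    (y : ℝ) (hy : 0 ≤ y) (k : ℕ) (h : y + k * P ≤ ∑ i ∈ F, q i) :
    y ^ k / k.factorial ≤ es q F k := by
  have key : ∀ j : ℕ, j ≤ k → y ^ j / j.factorial ≤ es q F j := by
    intro j
    induction j with
    | zero => intro _; simp [es_zero]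
    | succ j ih =>
        intro hj
        have ih' := ih (by omega)
        have hf : (0 : ℝ) < (j.factorial : ℝ) := by exact_mod_cast j.factorial_pos
        have h1 : es q F j * y ≤ (j + 1 : ℝ) * es q F (j + 1) := by
          rw [es_succ]
          unfold es
          rw [Finset.sum_mul]
          apply Finset.sum_le_sum
          intro K hK
          apply mul_le_mul_of_nonneg_left _ (Finset.prod_nonneg (fun i _ => h0 i))
          obtain ⟨hK1, hK2⟩ := mem_powersetCard.1 hK
          have h2 : ∑ i ∈ F \ K, q i + ∑ i ∈ K, q i = ∑ i ∈ F, q i := Finset.sum_sdiff hK1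
          have h3 : ∑ i ∈ K, q i ≤ j * P := by
            calc ∑ i ∈ K, q i ≤ ∑ _i ∈ K, P := Finset.sum_le_sum (fun i _ => hP i)
              _ = j * P := by rw [Finset.sum_const, hK2, nsmul_eq_mul]
          have h4 : (j : ℝ) * P ≤ k * P := by
            apply mul_le_mul_of_nonneg_right _ hP0
            exact_mod_cast (by omega : j ≤ k)
          linarith
        rw [Nat.factorial_succ]
        push_cast
        rw [div_le_iff₀ (by positivity)]
        calc y ^ (j + 1) = (y ^ j / j.factorial * y) * j.factorial := by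
              rw [pow_succ]
              field_simp
          _ ≤ (es q F j * y) * j.factorial := by gcongr
          _ ≤ ((j + 1 : ℝ) * es q F (j + 1)) * j.factorial := by gcongr
          _ = es q F (j + 1) * ((j + 1) * j.factorial) := by ring
  exact key k le_rfl

theorem cn_le_es (q : ι → ℝ) (h0 : ∀ i, 0 ≤ q i) (h1 : ∀ i, q i ≤ 1) (F : Finset ι) (k : ℕ) :
    Pr (wq q) (fun ω => k ≤ cn F ω) ≤ es q F k := by
  classical
  have hw := wq_wt q h0 h1
  have h2 : Pr (wq q) (fun ω => k ≤ cn F ω) ≤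
      Pr (wq q) (fun ω => ∃ K ∈ F.powersetCard k, ∀ i ∈ K, ω i = true) := by
    apply Pr_mono hw
    intro ω h
    unfold cn at h
    obtain ⟨K, hK1, hK2⟩ := exists_subset_card_eq h
    refine ⟨K, mem_powersetCard.2 ⟨hK1.trans (filter_subset _ _), hK2⟩, ?_⟩
    intro i hi
    exact (mem_filter.1 (hK1 hi)).2
  refine h2.trans ((Pr_exists _ hw (fun K ω => ∀ i ∈ K, ω i = true)).trans ?_)
  unfold es
  apply Finset.sum_le_sum
  intro K _
  rw [Pr_all hw K (fun _ b => b = true)]
  rw [Finset.prod_congr rfl (fun i _ => P1_wq q i)]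

theorem es_le_choose (q : ι → ℝ) (h0 : ∀ i, 0 ≤ q i) (P : ℝ) (hP : ∀ i, q i ≤ P)
    (F : Finset ι) (k : ℕ) : es q F k ≤ (F.card.choose k : ℝ) * P ^ k := by
  unfold es
  calc ∑ K ∈ F.powersetCard k, ∏ i ∈ K, q i ≤ ∑ _K ∈ F.powersetCard k, P ^ k := by
        apply Finset.sum_le_sum
        intro K hK
        calc ∏ i ∈ K, q i ≤ ∏ _i ∈ K, P := Finset.prod_le_prod (fun i _ => h0 i) (fun i _ => hP i)
          _ = P ^ k := by rw [Finset.prod_const, (mem_powersetCard.1 hK).2]
    _ = (F.card.choose k : ℝ) * P ^ k := by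
        rw [Finset.sum_const, card_powersetCard, nsmul_eq_mul]

theorem es_le_cn (q : ι → ℝ) (h0 : ∀ i, 0 ≤ q i) (h1 : ∀ i, q i ≤ 1) (F : Finset ι) (k : ℕ) :
    es q F k * ∏ i ∈ F, (1 - q i) ≤ Pr (wq q) (fun ω => k ≤ cn F ω) := by
  classical
  have hw := wq_wt q h0 h1
  have h2 : ∀ K ∈ F.powersetCard k, (∏ i ∈ K, q i) * ∏ i ∈ F, (1 - q i) ≤
      Pr (wq q) (fun ω => F.filter (fun i => ω i = true) = K) := by
    intro K hK
    obtain ⟨hK1, hK2⟩ := mem_powersetCard.1 hK
    have h3 : (fun ω : ι → Bool => F.filter (fun i => ω i = true) = K) =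
        fun ω => ∀ i ∈ F, (fun (i : ι) (b : Bool) => (b = true ↔ i ∈ K)) i (ω i) := by
      funext ω
      apply propext
      constructor
      · intro h i hi
        rw [← h, mem_filter]
        tauto
      · intro h
        ext i
        rw [mem_filter]
        constructor
        · rintro ⟨hi, hω⟩
          exact (h i hi).1 hω
        · intro hi
          exact ⟨hK1 hi, (h i (hK1 hi)).2 hi⟩
    rw [h3, Pr_all hw F (fun (i : ι) (b : Bool) => (b = true ↔ i ∈ K))]
    have h4 : ∀ i ∈ F, P1 (wq q) i (fun b => (b = true ↔ i ∈ K)) =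
        if i ∈ K then q i else 1 - q i := by
      intro i _
      by_cases hi : i ∈ K
      · simp only [hi, if_true, iff_true]
        exact P1_wq q i
      · simp only [hi, if_false, iff_false, Bool.not_eq_true]
        exact P1_wq' q i
    rw [Finset.prod_congr rfl h4, Finset.prod_ite]
    have h5 : F.filter (fun i => i ∈ K) = K := by
      ext i
      rw [mem_filter]
      exact ⟨fun h => h.2, fun h => ⟨hK1 h, h⟩⟩
    rw [h5]
    apply mul_le_mul_of_nonneg_left _ (Finset.prod_nonneg (fun i _ => h0 i))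
    rw [← Finset.prod_filter_mul_prod_filter_not F (fun i => i ∈ K) (fun i => 1 - q i)]
    have h6 : ∏ i ∈ F.filter (fun i => i ∈ K), (1 - q i) ≤ 1 :=
      Finset.prod_le_one (fun i _ => by linarith [h1 i]) (fun i _ => by linarith [h0 i])
    have h7 : 0 ≤ ∏ i ∈ F.filter (fun i => ¬ i ∈ K), (1 - q i) :=
      Finset.prod_nonneg (fun i _ => by linarith [h1 i])
    calc (∏ i ∈ F.filter (fun i => i ∈ K), (1 - q i)) * ∏ i ∈ F.filter (fun i => ¬ i ∈ K), (1 - q i) ≤
          1 * ∏ i ∈ F.filter (fun i => ¬ i ∈ K), (1 - q i) := mul_le_mul_of_nonneg_right h6 h7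
      _ = _ := one_mul _
  have h6 : ∑ K ∈ F.powersetCard k, Pr (wq q) (fun ω => F.filter (fun i => ω i = true) = K) ≤
      Pr (wq q) (fun ω => k ≤ cn F ω) := by
    unfold Pr
    rw [← Ex_sum]
    apply Ex_mono hw
    intro ω
    have h8 : (∑ K ∈ F.powersetCard k, if F.filter (fun i => ω i = true) = K then (1 : ℝ) else 0) =
        if F.filter (fun i => ω i = true) ∈ F.powersetCard k then 1 else 0 :=
      Finset.sum_ite_eq _ _ _
    have h9 : (if F.filter (fun i => ω i = true) ∈ F.powersetCard k then (1 : ℝ) else 0) ≤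
        if k ≤ cn F ω then 1 else 0 := by
      by_cases h : F.filter (fun i => ω i = true) ∈ F.powersetCard k
      · have h7 : k ≤ cn F ω := by
          unfold cn
          have := (mem_powersetCard.1 h).2
          exact this.ge
        rw [if_pos h7, if_pos h]
      · rw [if_neg h]
        split_ifs <;> norm_num
    refine le_trans (le_of_eq ?_) (h8.le.trans (h9.trans (le_of_eq ?_)))
    · congr!
    · congr!
  refine le_trans ?_ h6
  refine le_trans ?_ (Finset.sum_le_sum h2)
  unfold es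
  rw [Finset.sum_mul]

theorem prod_one_sub (q : ι → ℝ) (h0 : ∀ i, 0 ≤ q i) (P : ℝ) (hP : ∀ i, q i ≤ P) (hP1 : P ≤ 1)
    (F : Finset ι) (hF : (∑ i ∈ F, q i) * P ≤ 1 / 2) :
    Real.exp (-∑ i ∈ F, q i) / 2 ≤ ∏ i ∈ F, (1 - q i) := by
  have h1 : ∀ i, Real.exp (-q i) * (1 - q i ^ 2) ≤ 1 - q i := by
    intro i
    have hq1 : q i ≤ 1 := (hP i).trans hP1
    have h2 : 1 + q i ≤ Real.exp (q i) := by
      have := Real.add_one_le_exp (q i)
      linarith
    have h3 : Real.exp (-q i) * (1 + q i) ≤ 1 := by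
      rw [Real.exp_neg, ← div_eq_inv_mul]
      exact (div_le_one (Real.exp_pos _)).2 h2
    have h4 : 0 ≤ 1 - q i := by linarith
    calc Real.exp (-q i) * (1 - q i ^ 2) = (Real.exp (-q i) * (1 + q i)) * (1 - q i) := by ring
      _ ≤ 1 * (1 - q i) := mul_le_mul_of_nonneg_right h3 h4
      _ = 1 - q i := one_mul _
  have hsq : ∀ i, q i ^ 2 ≤ 1 := fun i => by
    have := h0 i
    have := (hP i).trans hP1
    nlinarith
  have h5 : ∀ G : Finset ι, 1 - ∑ i ∈ G, q i ^ 2 ≤ ∏ i ∈ G, (1 - q i ^ 2) := by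
    intro G
    induction G using Finset.induction_on with
    | empty => simp
    | insert a G ha ih =>
        rw [Finset.sum_insert ha, Finset.prod_insert ha]
        have e1 : 0 ≤ q a ^ 2 := sq_nonneg _
        have e2 := hsq a
        have e3 : 0 ≤ ∑ i ∈ G, q i ^ 2 := Finset.sum_nonneg (fun i _ => sq_nonneg _)
        have e4 : (1 - q a ^ 2) * (1 - ∑ i ∈ G, q i ^ 2) ≤ (1 - q a ^ 2) * ∏ i ∈ G, (1 - q i ^ 2) :=
          mul_le_mul_of_nonneg_left ih (by linarith)
        nlinarith
  have h6 : ∑ i ∈ F, q i ^ 2 ≤ 1 / 2 := by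
    refine le_trans ?_ hF
    rw [Finset.sum_mul]
    apply Finset.sum_le_sum
    intro i _
    rw [sq]
    exact mul_le_mul_of_nonneg_left (hP i) (h0 i)
  calc Real.exp (-∑ i ∈ F, q i) / 2 = (∏ i ∈ F, Real.exp (-q i)) * (1 / 2) := by
        rw [← Real.exp_sum, Finset.sum_neg_distrib]
        ring
    _ ≤ (∏ i ∈ F, Real.exp (-q i)) * ∏ i ∈ F, (1 - q i ^ 2) := by
        apply mul_le_mul_of_nonneg_left _ (Finset.prod_nonneg (fun i _ => (Real.exp_pos _).le))
        have := h5 F
        linarith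
    _ = ∏ i ∈ F, (Real.exp (-q i) * (1 - q i ^ 2)) := by rw [Finset.prod_mul_distrib]
    _ ≤ ∏ i ∈ F, (1 - q i) := by
        apply Finset.prod_le_prod
        · intro i _
          apply mul_nonneg (Real.exp_pos _).le
          linarith [hsq i]
        · intro i _
          exact h1 i

end

end Pool.Agent.K4H76.LR2
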