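import Pool.Agent.K4H76.LR2.HMax2
import Pool.Agent.K4H76.LR.Params

/-!
# Independent edges, large degrees
-/

set_option autoImplicit false
set_option linter.unusedSectionVars false

namespace Pool.Agent.K4H76.LR2

open Finset Pool.Agent.H162R2.Sparse Pool.Agent.K4H76.LR

/-- the condition for the small sets -/
theorem sparse_cond (n s : ℕ) (x b N P : ℝ) (hn : (n : ℝ) = Real.exp x) (hs1 : 1 ≤ s)
    (hP : P = Real.exp (b * x - x)) (hs : (s : ℝ) ≤ N) :
    Real.exp 1 * n / s * (Real.exp 1 * s * P / (2 * (2 : ℕ))) ^ 2 ≤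
      Real.exp 3 * Real.exp (2 * b * x) * N * Real.exp (-x) := by
  have hs0 : (0 : ℝ) < s := by exact_mod_cast hs1
  have he : Real.exp 3 = Real.exp 1 * Real.exp 1 * Real.exp 1 := by
    rw [← Real.exp_add, ← Real.exp_add]; norm_num
  have h2 : Real.exp 1 * n / s * (Real.exp 1 * s * P / (2 * (2 : ℕ))) ^ 2 =
      Real.exp 3 / 16 * s * (n * P ^ 2) := by
    rw [he]
    push_cast
    field_simp
    ring
  have h3 : (n : ℝ) * P ^ 2 = Real.exp (2 * b * x) * Real.exp (-x) := by
    rw [hn, hP, ← Real.exp_nat_mul, ← Real.exp_add, ← Real.exp_add]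
    congr 1
    push_cast
    ring
  rw [h2, h3]
  have h4 : Real.exp 3 / 16 * s ≤ Real.exp 3 * N := by
    have : 0 < Real.exp 3 := Real.exp_pos 3
    have : Real.exp 3 * s ≤ Real.exp 3 * N := by gcongr
    have : 0 < Real.exp 3 * s := by positivity
    linarith
  calc Real.exp 3 / 16 * s * (Real.exp (2 * b * x) * Real.exp (-x)) ≤
        Real.exp 3 * N * (Real.exp (2 * b * x) * Real.exp (-x)) := by gcongr
    _ = _ := by ring

theorem regime1 (η : ℝ) (hη : 0 < η) (g : ℝ) (hg : g = 1 / 29491200) : ∃ x₀ : ℝ, ∀ n : ℕ,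
    x₀ ≤ Real.log n → ∀ q : Ed n → ℝ, (∀ i, 0 ≤ q i) → (∀ i, q i ≤ 1) →
    (∀ i, q i ≤ Real.exp ((g / 16 - 1) * Real.log n)) → ∀ A : Finset (Fin n),
    A.card = ⌈Real.exp ((1 - g) * Real.log n)⌉₊ → ∀ l : ℝ, Real.log n / 100000 ≤ l →
    (∀ v ∈ A, l ≤ lam q v) → (∀ v, v ∉ A → lam q v ≤ l) →
    1 - η ≤ Pr (wq q) (fun ω => Good (Gr ω)) := by
  have hg0 : 0 < g := by rw [hg]; norm_num
  obtain ⟨x0, hx0⟩ := max1 g hg0 (by rw [hg]; norm_num) (η / 4) (by positivity)
  obtain ⟨x1, hx1⟩ := ev_exp (g / 16) (by positivity)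
    (max 500000 (max (Real.exp 3) (16 / η))) 0
  obtain ⟨x2, hx2⟩ := ev_exp (g / 8) (by positivity) 16 1
  refine ⟨max 250000000 (max x0 (max x1 x2)), ?_⟩
  intro n hn q h0 h1 hqP A hAm l hl1 hA1 hA2
  have hw := wq_wt q h0 h1
  obtain ⟨x, hx⟩ : ∃ x : ℝ, x = Real.log n := ⟨_, rfl⟩
  simp only [max_le_iff] at hn
  obtain ⟨k0, k00, k1, k2⟩ := hn
  have hmax := hx0 n k00 q h0 h1 hqP
  rw [← hx] at hmax k0 k00 k1 k2 hl1 hqP hAm
  have g1 := hx1 x k1
  have g2 := hx2 x k2
  rw [pow_zero, mul_one] at g1
  rw [pow_one] at g2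
  simp only [max_le_iff] at g1
  obtain ⟨g1a, g1b, g1c⟩ := g1
  have hx00 : 0 < x := by linarith
  have hn0 : 0 < n := by
    rcases Nat.eq_zero_or_pos n with h | h
    · rw [h] at hx
      simp at hx
      linarith
    · exact h
  have hn0' : (0 : ℝ) < n := by exact_mod_cast hn0
  have hnx : (n : ℝ) = Real.exp x := by rw [hx, Real.exp_log hn0']
  have hexp : ∀ a b : ℝ, a ≤ b → Real.exp a ≤ Real.exp b := fun a b h => Real.exp_le_exp.2 h
  obtain ⟨P, hP⟩ : ∃ P : ℝ, P = Real.exp ((g / 16 - 1) * x) := ⟨_, rfl⟩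
  rw [← hP] at hqP
  have hP0 : 0 ≤ P := by rw [hP]; positivity
  have hlam : ∀ v, lam q v ≤ Real.exp (g / 16 * x) := by
    intro v
    refine (lam_le q P hP0 hqP v).trans (le_of_eq ?_)
    rw [hnx, hP, ← Real.exp_add]
    congr 1
    ring
  -- the set A
  have hAm1 : Real.exp ((1 - g) * x) ≤ A.card := by rw [hAm]; exact Nat.le_ceil _
  have hAm2 : (A.card : ℝ) ≤ Real.exp ((1 - g) * x) + 1 := by
    rw [hAm]
    exact (Nat.ceil_lt_add_one (Real.exp_pos _).le).le
  have hAne : A.Nonempty := by
    rw [← card_pos]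
    have h2 := Real.exp_pos ((1 - g) * x)
    have : (0 : ℝ) < A.card := by linarith
    exact_mod_cast this
  have hl2 : l ≤ Real.exp (g / 16 * x) := by
    obtain ⟨v, hv⟩ := hAne
    exact (hA1 v hv).trans (hlam v)
  obtain ⟨A', hA'1, hA'2⟩ : ∃ A' ⊆ A, A'.card = ⌊Real.exp (3 / 4 * x)⌋₊ := by
    apply exists_subset_card_eq
    have h2 : (⌊Real.exp (3 / 4 * x)⌋₊ : ℝ) ≤ A.card := by
      refine (Nat.floor_le (Real.exp_pos _).le).trans (le_trans (hexp _ _ ?_) hAm1)
      rw [hg]
      linarith
    exact_mod_cast h2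
  have hl1' : 2500 ≤ l := by linarith
  have hl0 : 0 < l := by linarith
  obtain ⟨s, hs⟩ : ∃ s : ℝ, s = Real.sqrt (l * x) := ⟨_, rfl⟩
  have hs0 : 0 < s := by rw [hs]; exact Real.sqrt_pos.2 (by positivity)
  have hs2 : s ^ 2 = l * x := by rw [hs]; exact Real.sq_sqrt (by positivity)
  have A1' := hmax A' hA'2 l hl1 hl2 (fun v hv => hA1 v (hA'1 hv)) s hs0.le hs2
  have hsl : s ≤ 317 * l := by
    rw [← pow_le_pow_iff_left₀ hs0.le (by positivity) (by norm_num : 2 ≠ 0), mul_pow, hs2]
    nlinarith
  -- vertices of large degree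
  have A2 := few_large q h0 h1 Aᶜ (l + s / 4) (Real.exp (-(x / 10400))) (Real.exp (x - g * x))
    (Real.exp_pos _) (Real.exp_pos _).le (by
      intro v hv
      have h2 := deg_upper q h0 h1 (l + s / 8) (s / 8) (by positivity) (by positivity)
        (by linarith) v (by
          have := hA2 v (mem_compl.1 hv)
          linarith)
      have h3 : l + s / 8 + s / 8 = l + s / 4 := by ring
      rw [h3] at h2
      refine h2.trans ?_
      apply hexp
      rw [div_le_iff₀ (by positivity)]
      have h4 : (s / 8) ^ 2 = l * x / 64 := by rw [div_pow, hs2]; norm_num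
      rw [h4]
      nlinarith)
  have A2' : (n : ℝ) * Real.exp (-(x / 10400)) / Real.exp (x - g * x) ≤ η / 4 := by
    rw [hnx, ← Real.exp_add, ← Real.exp_sub]
    have h2 : Real.exp (x + -(x / 10400) - (x - g * x)) ≤ Real.exp (-(g / 16 * x)) := by
      apply hexp
      rw [hg]
      linarith
    refine h2.trans ?_
    rw [Real.exp_neg, ← one_div, div_le_iff₀ (Real.exp_pos _)]
    calc (1 : ℝ) ≤ η / 4 * (16 / η) := by
          field_simp
          norm_num
      _ ≤ η / 4 * Real.exp (g / 16 * x) := by gcongr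
  -- the maximum degree is small
  have A4 := few_large q h0 h1 univ (Real.exp (g / 8 * x)) (Real.exp (-(Real.exp (g / 8 * x) / 8))) 1
    one_pos (Real.exp_pos _).le (by
      intro v _
      have h2 := deg_upper q h0 h1 (Real.exp (g / 8 * x) / 2) (Real.exp (g / 8 * x) / 2)
        (by positivity) (by positivity) (by
          have := Real.exp_pos (g / 8 * x)
          linarith) v (by
          refine (hlam v).trans ?_
          have h3 : Real.exp (g / 8 * x) = Real.exp (g / 16 * x) * Real.exp (g / 16 * x) := by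
            rw [← Real.exp_add]
            congr 1
            ring
          rw [h3]
          have := Real.exp_pos (g / 16 * x)
          nlinarith)
      have h3 : Real.exp (g / 8 * x) / 2 + Real.exp (g / 8 * x) / 2 = Real.exp (g / 8 * x) := by
        ring
      rw [h3] at h2
      refine h2.trans (le_of_eq ?_)
      congr 1
      have := Real.exp_pos (g / 8 * x)
      field_simp
      ring)
  have A4' : (n : ℝ) * Real.exp (-(Real.exp (g / 8 * x) / 8)) / 1 ≤ η / 4 := by
    rw [hnx, div_one, ← Real.exp_add]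
    have h2 : Real.exp (x + -(Real.exp (g / 8 * x) / 8)) ≤ Real.exp (-(g / 16 * x)) := by
      apply hexp
      have : g / 16 * x ≤ x := by
        rw [hg]
        linarith
      linarith
    refine h2.trans ?_
    rw [Real.exp_neg, ← one_div, div_le_iff₀ (Real.exp_pos _)]
    calc (1 : ℝ) ≤ η / 4 * (16 / η) := by
          field_simp
          norm_num
      _ ≤ η / 4 * Real.exp (g / 16 * x) := by gcongr
  -- local sparsity
  obtain ⟨N, hN⟩ : ∃ N : ℕ, N = ⌊Real.exp (x - g / 2 * x)⌋₊ := ⟨_, rfl⟩
  have hN1 : (N : ℝ) ≤ Real.exp (x - g / 2 * x) := by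
    rw [hN]
    exact Nat.floor_le (Real.exp_pos _).le
  have hN2 : Real.exp (x - g / 2 * x) / 2 ≤ N := by
    have h2 := Nat.lt_floor_add_one (Real.exp (x - g / 2 * x))
    rw [← hN] at h2
    have h3 : 500000 ≤ Real.exp (x - g / 2 * x) := g1a.trans (hexp _ _ (by
      rw [hg]
      linarith))
    linarith
  have A3 := local_sparse q h0 h1 2 N (by norm_num) P (Real.exp (-(g / 4 * x))) hP0 hqP
    (Real.exp_pos _).le (by
      rw [Real.exp_neg, ← one_div]
      apply one_div_le_one_div_of_le (by norm_num)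
      have : Real.exp (g / 16 * x) ≤ Real.exp (g / 4 * x) := by
        apply hexp
        nlinarith
      linarith) (by
      intro s hs1 hs2
      refine (sparse_cond n s x (g / 16) N P hnx hs1 (by rw [hP]; congr 1; ring)
        (by exact_mod_cast hs2)).trans ?_
      calc Real.exp 3 * Real.exp (2 * (g / 16) * x) * N * Real.exp (-x) ≤
            Real.exp (g / 16 * x) * Real.exp (2 * (g / 16) * x) * Real.exp (x - g / 2 * x) *
              Real.exp (-x) := by gcongr
        _ ≤ Real.exp (-(g / 4 * x)) := by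
            rw [← Real.exp_add, ← Real.exp_add, ← Real.exp_add]
            apply hexp
            nlinarith)
  have A3' : 2 * Real.exp (-(g / 4 * x)) ≤ η / 4 := by
    rw [Real.exp_neg, ← div_eq_mul_inv, div_le_iff₀ (Real.exp_pos _)]
    calc (2 : ℝ) ≤ η / 4 * (16 / η) := by
          field_simp
          norm_num
      _ ≤ η / 4 * Real.exp (g / 16 * x) := by gcongr
      _ ≤ η / 4 * Real.exp (g / 4 * x) := by
          have : Real.exp (g / 16 * x) ≤ Real.exp (g / 4 * x) := by
            apply hexp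
            nlinarith
          gcongr
  -- the conclusion
  have hfin : Pr (wq q) (fun ω => ¬ Good (Gr ω)) ≤ η := by
    have h2 : Pr (wq q) (fun ω => ¬ Good (Gr ω)) ≤ Pr (wq q) (fun ω =>
        (∀ v : Fin n, dg (Gr ω) v < ⌈l + s / 2⌉₊) ∨ ((Real.exp (x - g * x) ≤
          (((Aᶜ).filter (fun v : Fin n => l + s / 4 ≤ dg (Gr ω) v)).card : ℝ)) ∨
        ((1 ≤ ((univ.filter (fun v : Fin n => Real.exp (g / 8 * x) ≤ dg (Gr ω) v)).card : ℝ)) ∨
        ∃ S : Finset (Fin n), 1 ≤ S.card ∧ S.card ≤ N ∧ 2 * S.card ≤ cn (ins S) ω))) := by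
      apply Pr_mono hw
      intro ω hω
      by_contra hcon
      push Not at hcon
      obtain ⟨⟨v, hv⟩, c2, c4, c3⟩ := hcon
      apply hω
      intro D hD hD' L hsym hL
      have hkD : ⌈l + s / 2⌉₊ ≤ D := hv.trans (hD v)
      have hkD' : l + s / 2 ≤ D := (Nat.le_ceil _).trans (by exact_mod_cast hkD)
      have hDup : (D : ℝ) < Real.exp (g / 8 * x) := by
        obtain ⟨u, hu⟩ := hD'
        by_contra hcon
        push Not at hcon
        have h3 : 0 < (univ.filter (fun v : Fin n => Real.exp (g / 8 * x) ≤ dg (Gr ω) v)).card := by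
          apply card_pos.2
          exact ⟨u, mem_filter.2 ⟨mem_univ _, by rw [hu]; exact hcon⟩⟩
        have h4 : (1 : ℝ) ≤ (univ.filter (fun v : Fin n =>
          Real.exp (g / 8 * x) ≤ dg (Gr ω) v)).card := by exact_mod_cast h3
        linarith
      have hD2500 : 2500 ≤ D := by
        have : (2500 : ℝ) ≤ D := by linarith
        exact_mod_cast this
      refine theoremM (Gr ω) (1 / 60) (by norm_num) (by norm_num) D ⌊l + s / 4⌋₊ 4 N
        (A ∪ (Aᶜ).filter (fun v : Fin n => l + s / 4 ≤ dg (Gr ω) v)) x (by linarith)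
        (by push_cast; linarith) (main_cond D hD2500) hD ?_ ?_ (by omega) ?_ ?_ L hsym hL
      · intro v hv
        rw [mem_union, mem_filter, mem_compl] at hv
        apply Nat.le_floor
        by_contra h
        push Not at h
        by_cases hvA : v ∈ A
        · exact hv (Or.inl hvA)
        · exact hv (Or.inr ⟨hvA, h.le⟩)
      · have h3 := Nat.floor_le (a := l + s / 4) (by positivity)
        have h4 := sqrt_cond l x s D hl0 hx00 hs0 hs2 hl1 hkD'
        linarith
      · intro X hX
        rcases Nat.eq_zero_or_pos X.card with h | h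
        · have h4 : ep (Gr ω) X = 0 := by
            rw [card_eq_zero] at h
            rw [h]
            unfold ep
            rw [card_eq_zero, filter_eq_empty_iff]
            intro e _ he
            exact absurd he.1 (notMem_empty _)
          omega
        · have h4 := c3 X h hX
          have h5 := ep_le X ω
          omega
      · rw [Fintype.card_fin]
        have hT : ((A ∪ (Aᶜ).filter (fun v : Fin n => l + s / 4 ≤ dg (Gr ω) v)).card : ℝ) ≤
            2 * Real.exp (x - g * x) + 1 := by
          have e1 := card_union_le A ((Aᶜ).filter (fun v : Fin n => l + s / 4 ≤ dg (Gr ω) v))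
          have e2 : ((A ∪ (Aᶜ).filter (fun v : Fin n => l + s / 4 ≤ dg (Gr ω) v)).card : ℝ) ≤
              A.card + ((Aᶜ).filter (fun v : Fin n => l + s / 4 ≤ dg (Gr ω) v)).card := by
            exact_mod_cast e1
          have e3 : Real.exp ((1 - g) * x) = Real.exp (x - g * x) := by
            congr 1
            ring
          rw [e3] at hAm2
          linarith
        have h3 : (D : ℝ) ^ 2 ≤ Real.exp (g / 4 * x) := by
          refine (pow_le_pow_left₀ (Nat.cast_nonneg _) hDup.le 2).trans (le_of_eq ?_)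
          rw [← Real.exp_nat_mul]
          congr 1
          push_cast
          ring
        have h4 : (1 / 60 : ℝ) ^ 2 / 8192 * x = g * x := by
          rw [hg]
          norm_num
        rw [h4]
        have h5 : (32 : ℝ) / (1 / 60) ^ 2 * n * D ^ 2 * Real.exp (-(g * x)) ≤
            115200 * Real.exp (x - 3 / 4 * g * x) := by
          calc (32 : ℝ) / (1 / 60) ^ 2 * n * D ^ 2 * Real.exp (-(g * x)) ≤
                32 / (1 / 60) ^ 2 * n * Real.exp (g / 4 * x) * Real.exp (-(g * x)) := by gcongr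
            _ = 115200 * (Real.exp x * Real.exp (g / 4 * x) * Real.exp (-(g * x))) := by
                rw [hnx]
                ring
            _ = 115200 * Real.exp (x - 3 / 4 * g * x) := by
                rw [← Real.exp_add, ← Real.exp_add]
                congr 2
                ring
        have h6 : Real.exp (x - g * x) ≤ Real.exp (x - 3 / 4 * g * x) := by
          apply hexp
          nlinarith
        have h7 : 500000 * Real.exp (x - 3 / 4 * g * x) ≤ Real.exp (x - g / 2 * x) := by
          calc 500000 * Real.exp (x - 3 / 4 * g * x) ≤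
                Real.exp (g / 16 * x) * Real.exp (x - 3 / 4 * g * x) := by gcongr
            _ ≤ Real.exp (x - g / 2 * x) := by
                rw [← Real.exp_add]
                apply hexp
                nlinarith
        have h8 : 1 ≤ Real.exp (x - 3 / 4 * g * x) := by
          apply Real.one_le_exp
          rw [hg]
          linarith
        linarith
    refine h2.trans ((Pr_or hw _ _).trans ?_)
    have h3 := Pr_or hw (fun ω => (Real.exp (x - g * x) ≤
          (((Aᶜ).filter (fun v : Fin n => l + s / 4 ≤ dg (Gr ω) v)).card : ℝ)))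
        (fun ω => (1 ≤ ((univ.filter (fun v : Fin n =>
          Real.exp (g / 8 * x) ≤ dg (Gr ω) v)).card : ℝ)) ∨
        ∃ S : Finset (Fin n), 1 ≤ S.card ∧ S.card ≤ N ∧ 2 * S.card ≤ cn (ins S) ω)
    have h4 := Pr_or hw (fun ω => (1 ≤ ((univ.filter (fun v : Fin n =>
          Real.exp (g / 8 * x) ≤ dg (Gr ω) v)).card : ℝ)))
        (fun ω => ∃ S : Finset (Fin n), 1 ≤ S.card ∧ S.card ≤ N ∧ 2 * S.card ≤ cn (ins S) ω)
    linarith
  rw [Pr_not hw] at hfin
  linarith

end Pool.Agent.K4H76.LR2
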