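import Pool.Agent.K4H76.LR2.HReg1

/-!
# Independent edges, small degrees
-/

set_option autoImplicit false
set_option linter.unusedSectionVars false

namespace Pool.Agent.K4H76.LR2

open Finset Pool.Agent.H162R2.Sparse Pool.Agent.K4H76.LR

theorem regime2 (η : ℝ) (hη : 0 < η) (g : ℝ) (hg : g = 1 / 29491200) : ∃ x₀ : ℝ, ∀ n : ℕ,
    x₀ ≤ Real.log n → ∀ q : Ed n → ℝ, (∀ i, 0 ≤ q i) → (∀ i, q i ≤ 1) →
    (∀ i, q i ≤ Real.exp ((g / 16 - 1) * Real.log n)) → ∀ A : Finset (Fin n),
    A.card = ⌈Real.exp ((1 - g) * Real.log n)⌉₊ → ∀ l : ℝ,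
    Real.exp (-(1 / 20000 * Real.log n)) ≤ l → l ≤ Real.log n / 100000 →
    (∀ v ∈ A, l ≤ lam q v) → (∀ v, v ∉ A → lam q v ≤ l) →
    1 - η ≤ Pr (wq q) (fun ω => Good (Gr ω)) := by
  have hg0 : 0 < g := by rw [hg]; norm_num
  obtain ⟨J, hJ⟩ : ∃ J : ℕ, J = 1250 := ⟨_, rfl⟩
  obtain ⟨x0, hx0⟩ := max2 (η / 4) (by positivity)
  obtain ⟨x1, hx1⟩ := ev_exp (g / 16) (by positivity)
    (max (J.factorial + 1) (max 500000 (max (Real.exp 3) (16 / η)))) 0
  refine ⟨max 2000 (max x0 x1), ?_⟩
  intro n hn q h0 h1 hqP A hAm l hl1 hl2 hA1 hA2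
  have hw := wq_wt q h0 h1
  obtain ⟨x, hx⟩ : ∃ x : ℝ, x = Real.log n := ⟨_, rfl⟩
  simp only [max_le_iff] at hn
  obtain ⟨k0, k00, k1⟩ := hn
  have hmax := hx0 n k00 q h0 h1
  rw [← hx] at hmax k0 k00 k1 hl1 hl2 hqP hAm
  have g1 := hx1 x k1
  rw [pow_zero, mul_one] at g1
  simp only [max_le_iff] at g1
  obtain ⟨g1J, g1a, g1b, g1c⟩ := g1
  have hx00 : 0 < x := by linarith
  have hn0 : 0 < n := by
    rcases Nat.eq_zero_or_pos n with h | h
    · rw [h] at hx
      simp at hx
      linarith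
    · exact h
  have hn0' : (0 : ℝ) < n := by exact_mod_cast hn0
  have hnx : (n : ℝ) = Real.exp x := by rw [hx, Real.exp_log hn0']
  have hexp : ∀ a b : ℝ, a ≤ b → Real.exp a ≤ Real.exp b := fun a b h => Real.exp_le_exp.2 h
  obtain ⟨P, hP⟩ : ∃ P : ℝ, P = Real.exp ((g / 16 - 1) * x) := ⟨_, rfl⟩
  rw [← hP] at hqP
  have hP0 : 0 ≤ P := by rw [hP]; positivity
  have hlpos : 0 < l := lt_of_lt_of_le (Real.exp_pos _) hl1
  -- the set A
  have hAm1 : Real.exp ((1 - g) * x) ≤ A.card := by rw [hAm]; exact Nat.le_ceil _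
  have hAm2 : (A.card : ℝ) ≤ Real.exp ((1 - g) * x) + 1 := by
    rw [hAm]
    exact (Nat.ceil_lt_add_one (Real.exp_pos _).le).le
  obtain ⟨A', hA'1, hA'2⟩ : ∃ A' ⊆ A, A'.card = ⌊Real.exp (3 / 4 * x)⌋₊ := by
    apply exists_subset_card_eq
    have h2 : (⌊Real.exp (3 / 4 * x)⌋₊ : ℝ) ≤ A.card := by
      refine (Nat.floor_le (Real.exp_pos _).le).trans (le_trans (hexp _ _ ?_) hAm1)
      rw [hg]
      linarith
    exact_mod_cast h2
  -- the threshold
  obtain ⟨d, d1, d2, d3, d4⟩ := exists_d J x l (1 / 20000) hx00 (by norm_num)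
    (by rw [hJ]; norm_num) (by
      have h2 : Real.exp (g / 16 * x) ≤ Real.exp (x / 16) := by
        apply hexp
        rw [hg]
        linarith
      linarith) hl1 hl2
  have A1' := hmax (fun i => (hqP i).trans (by
    rw [hP]
    apply hexp
    rw [hg]
    linarith)) A' hA'2 l hl1 hl2 (fun v hv => hA1 v (hA'1 hv)) d d2 (by
    have : x / 8 = x / 8 := rfl
    exact d4)
  -- vertices of large degree
  have A2 := few_large q h0 h1 Aᶜ ((d + 1 : ℕ) : ℝ) (Real.exp (-(x / 8)))
    (Real.exp (15 / 16 * x) / 4) (by positivity) (Real.exp_pos _).le (by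
      intro v hv
      refine le_trans ?_ d3
      have h2 := deg_upper' q h0 h1 (d + 1) v
      have h3 : (lam q v) ^ (d + 1) / (d + 1).factorial ≤ l ^ (d + 1) / (d + 1).factorial := by
        have h4 := hA2 v (mem_compl.1 hv)
        have h5 := lam_nonneg q h0 v
        gcongr
      refine le_trans (le_of_eq ?_) (h2.trans h3)
      congr 1
      funext ω
      rw [Nat.cast_le])
  have A2' : (n : ℝ) * Real.exp (-(x / 8)) / (Real.exp (15 / 16 * x) / 4) ≤ η / 4 := by
    have h2 : (n : ℝ) * Real.exp (-(x / 8)) / (Real.exp (15 / 16 * x) / 4) =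
        4 * Real.exp (-(1 / 16 * x)) := by
      rw [div_eq_iff (by positivity), hnx, ← Real.exp_add]
      rw [show (4 : ℝ) * Real.exp (-(1 / 16 * x)) * (Real.exp (15 / 16 * x) / 4) =
        Real.exp (-(1 / 16 * x)) * Real.exp (15 / 16 * x) by ring, ← Real.exp_add]
      congr 1
      ring
    rw [h2]
    have h3 : 16 / η ≤ Real.exp (1 / 16 * x) := g1c.trans (hexp _ _ (by
      rw [hg]
      linarith))
    rw [Real.exp_neg]
    have h4 : 0 < Real.exp (1 / 16 * x) := Real.exp_pos _
    rw [← div_eq_mul_inv, div_le_iff₀ h4]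
    calc (4 : ℝ) = η / 4 * (16 / η) := by
          field_simp
          norm_num
      _ ≤ η / 4 * Real.exp (1 / 16 * x) := by gcongr
  -- local sparsity
  obtain ⟨N, hN⟩ : ∃ N : ℕ, N = ⌊Real.exp (x - g / 2 * x)⌋₊ := ⟨_, rfl⟩
  have hN1 : (N : ℝ) ≤ Real.exp (x - g / 2 * x) := by
    rw [hN]
    exact Nat.floor_le (Real.exp_pos _).le
  have hN2 : Real.exp (x - g / 2 * x) / 2 ≤ N := by
    have h2 := Nat.lt_floor_add_one (Real.exp (x - g / 2 * x))
    rw [← hN] at h2
    have h3 : 500000 ≤ Real.exp (x - g / 2 * x) := g1a.trans (hexp _ _ (by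
      rw [hg]
      linarith))
    linarith
  have A3 := local_sparse q h0 h1 2 N (by norm_num) P (Real.exp (-(g / 4 * x))) hP0 hqP
    (Real.exp_pos _).le (by
      rw [Real.exp_neg, ← one_div]
      apply one_div_le_one_div_of_le (by norm_num)
      have : Real.exp (g / 16 * x) ≤ Real.exp (g / 4 * x) := by
        apply hexp
        nlinarith
      linarith) (by
      intro s hs1 hs2
      refine (sparse_cond n s x (g / 16) N P hnx hs1 (by rw [hP]; congr 1; ring)
        (by exact_mod_cast hs2)).trans ?_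
      calc Real.exp 3 * Real.exp (2 * (g / 16) * x) * N * Real.exp (-x) ≤
            Real.exp (g / 16 * x) * Real.exp (2 * (g / 16) * x) * Real.exp (x - g / 2 * x) *
              Real.exp (-x) := by gcongr
        _ ≤ Real.exp (-(g / 4 * x)) := by
            rw [← Real.exp_add, ← Real.exp_add, ← Real.exp_add]
            apply hexp
            nlinarith)
  have A3' : 2 * Real.exp (-(g / 4 * x)) ≤ η / 4 := by
    rw [Real.exp_neg, ← div_eq_mul_inv, div_le_iff₀ (Real.exp_pos _)]
    calc (2 : ℝ) ≤ η / 4 * (16 / η) := by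
          field_simp
          norm_num
      _ ≤ η / 4 * Real.exp (g / 16 * x) := by gcongr
      _ ≤ η / 4 * Real.exp (g / 4 * x) := by
          have : Real.exp (g / 16 * x) ≤ Real.exp (g / 4 * x) := by
            apply hexp
            nlinarith
          gcongr
  -- the conclusion
  have hfin : Pr (wq q) (fun ω => ¬ Good (Gr ω)) ≤ η := by
    have h2 : Pr (wq q) (fun ω => ¬ Good (Gr ω)) ≤ Pr (wq q) (fun ω =>
        (∀ v : Fin n, dg (Gr ω) v < 2 * d + 8) ∨ ((Real.exp (15 / 16 * x) / 4 ≤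
          (((Aᶜ).filter (fun v : Fin n => ((d + 1 : ℕ) : ℝ) ≤ dg (Gr ω) v)).card : ℝ)) ∨
        ∃ S : Finset (Fin n), 1 ≤ S.card ∧ S.card ≤ N ∧ 2 * S.card ≤ cn (ins S) ω)) := by
      apply Pr_mono hw
      intro ω hω
      by_contra hcon
      push Not at hcon
      obtain ⟨⟨v, hv⟩, c2, c3⟩ := hcon
      apply hω
      intro D hD _ L hsym hL
      have hkD : 2 * d + 8 ≤ D := hv.trans (hD v)
      refine simple (Gr ω) D d 4 N
        (A ∪ (Aᶜ).filter (fun v : Fin n => ((d + 1 : ℕ) : ℝ) ≤ dg (Gr ω) v))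
        (main_cond D (by omega)) hD ?_ (by omega) ?_ ?_ L hsym hL
      · intro v hv
        rw [mem_union, mem_filter, mem_compl, Nat.cast_le] at hv
        by_contra h
        by_cases hvA : v ∈ A
        · exact hv (Or.inl hvA)
        · exact hv (Or.inr ⟨hvA, by omega⟩)
      · intro X hX
        rcases Nat.eq_zero_or_pos X.card with h | h
        · have h4 : ep (Gr ω) X = 0 := by
            rw [card_eq_zero] at h
            rw [h]
            unfold ep
            rw [card_eq_zero, filter_eq_empty_iff]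
            intro e _ he
            exact absurd he.1 (notMem_empty _)
          omega
        · have h4 := c3 X h hX
          have h5 := ep_le X ω
          omega
      · have hT : ((A ∪ (Aᶜ).filter (fun v : Fin n => ((d + 1 : ℕ) : ℝ) ≤ dg (Gr ω) v)).card : ℝ) ≤
            2 * Real.exp ((1 - g) * x) + 1 := by
          have e1 := card_union_le A ((Aᶜ).filter (fun v : Fin n =>
            ((d + 1 : ℕ) : ℝ) ≤ dg (Gr ω) v))
          have e2 : ((A ∪ (Aᶜ).filter (fun v : Fin n =>
              ((d + 1 : ℕ) : ℝ) ≤ dg (Gr ω) v)).card : ℝ) ≤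
              A.card + ((Aᶜ).filter (fun v : Fin n =>
                ((d + 1 : ℕ) : ℝ) ≤ dg (Gr ω) v)).card := by
            exact_mod_cast e1
          have e3 : Real.exp (15 / 16 * x) ≤ Real.exp ((1 - g) * x) := by
            apply hexp
            rw [hg]
            linarith
          have e4 : 0 < Real.exp (15 / 16 * x) := Real.exp_pos _
          linarith
        have h7 : 500000 * Real.exp ((1 - g) * x) ≤ Real.exp (x - g / 2 * x) := by
          calc 500000 * Real.exp ((1 - g) * x) ≤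
                Real.exp (g / 16 * x) * Real.exp ((1 - g) * x) := by gcongr
            _ ≤ Real.exp (x - g / 2 * x) := by
                rw [← Real.exp_add]
                apply hexp
                nlinarith
        have h8 : 1 ≤ Real.exp ((1 - g) * x) := by
          apply Real.one_le_exp
          rw [hg]
          linarith
        have h4 : 2 * ((A ∪ (Aᶜ).filter (fun v : Fin n =>
            ((d + 1 : ℕ) : ℝ) ≤ dg (Gr ω) v)).card : ℝ) ≤ N := by linarith
        exact_mod_cast h4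
    refine h2.trans ((Pr_or hw _ _).trans ?_)
    have h3 := Pr_or hw (fun ω => (Real.exp (15 / 16 * x) / 4 ≤
          (((Aᶜ).filter (fun v : Fin n => ((d + 1 : ℕ) : ℝ) ≤ dg (Gr ω) v)).card : ℝ)))
        (fun ω => ∃ S : Finset (Fin n), 1 ≤ S.card ∧ S.card ≤ N ∧ 2 * S.card ≤ cn (ins S) ω)
    linarith
  rw [Pr_not hw] at hfin
  linarith

end Pool.Agent.K4H76.LR2
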