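import Pool.Agent.K4H76.LR2.Paths
import Pool.Agent.K4H76.LR.Transfer

/-!
# Independent edges, very small degrees
-/

set_option autoImplicit false
set_option linter.unusedSectionVars false

namespace Pool.Agent.K4H76.LR2

open Finset Pool.Agent.H162R2.Sparse Pool.Agent.K4H76.LR

theorem regime3 (η : ℝ) (hη : 0 < η) (g : ℝ) (hg : g = 1 / 29491200) : ∃ x₀ : ℝ, ∀ n : ℕ,
    x₀ ≤ Real.log n → ∀ q : Ed n → ℝ, (∀ i, 0 ≤ q i) → (∀ i, q i ≤ 1) →
    (∀ i, q i ≤ Real.exp ((g / 16 - 1) * Real.log n)) → ∀ A : Finset (Fin n),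
    A.card = ⌈Real.exp ((1 - g) * Real.log n)⌉₊ → ∀ l : ℝ,
    l ≤ Real.exp (-(1 / 20000 * Real.log n)) → (∀ v, v ∉ A → lam q v ≤ l) →
    1 - η ≤ Pr (wq q) (fun ω => Good (Gr ω)) := by
  classical
  have hg0 : 0 < g := by rw [hg]; norm_num
  obtain ⟨x1, hx1⟩ := ev_exp (g / 16) (by positivity) (max 4 (12 / η)) 0
  refine ⟨max 1 x1, ?_⟩
  intro n hn q h0 h1 hqP A hAm l hl hA2
  have hw := wq_wt q h0 h1
  obtain ⟨x, hx⟩ : ∃ x : ℝ, x = Real.log n := ⟨_, rfl⟩
  simp only [max_le_iff] at hn
  obtain ⟨k0, k1⟩ := hn
  rw [← hx] at k0 k1 hl hqP hAm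
  have g1 := hx1 x k1
  rw [pow_zero, mul_one] at g1
  simp only [max_le_iff] at g1
  obtain ⟨g1a, g1c⟩ := g1
  have hx00 : 0 < x := by linarith
  have hn0 : 0 < n := by
    rcases Nat.eq_zero_or_pos n with h | h
    · rw [h] at hx
      simp at hx
      linarith
    · exact h
  have hn0' : (0 : ℝ) < n := by exact_mod_cast hn0
  have hnx : (n : ℝ) = Real.exp x := by rw [hx, Real.exp_log hn0']
  have hexp : ∀ a b : ℝ, a ≤ b → Real.exp a ≤ Real.exp b := fun a b h => Real.exp_le_exp.2 h
  obtain ⟨P, hP⟩ : ∃ P : ℝ, P = Real.exp ((g / 16 - 1) * x) := ⟨_, rfl⟩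
  rw [← hP] at hqP
  have hP0 : 0 ≤ P := by rw [hP]; positivity
  have hlam : ∀ v, lam q v ≤ Real.exp (g / 16 * x) := by
    intro v
    refine (lam_le q P hP0 hqP v).trans (le_of_eq ?_)
    rw [hnx, hP, ← Real.exp_add]
    congr 1
    ring
  have hAm2 : (A.card : ℝ) ≤ Real.exp ((1 - g) * x) + 1 := by
    rw [hAm]
    exact (Nat.ceil_lt_add_one (Real.exp_pos _).le).le
  have hAm3 : (A.card : ℝ) ≤ 2 * Real.exp ((1 - g) * x) := by
    have h8 : 1 ≤ Real.exp ((1 - g) * x) := by
      apply Real.one_le_exp
      rw [hg]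
      linarith
    linarith
  -- the weights
  obtain ⟨y, hy⟩ : ∃ y : Fin n → ℝ, y = fun v => if v ∈ A then Real.exp (5 * g / 16 * x) else 1 :=
    ⟨_, rfl⟩
  have hy1 : ∀ v, 1 ≤ y v := by
    intro v
    rw [hy]
    simp only
    split_ifs
    · apply Real.one_le_exp
      positivity
    · exact le_rfl
  have hyA : ∀ v ∈ A, y v = Real.exp (5 * g / 16 * x) := by
    intro v hv
    rw [hy]
    simp only [hv, if_true]
  have hyA' : ∀ v, v ∉ A → y v = 1 := by
    intro v hv
    rw [hy]
    simp only [hv, if_false]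
  have hsum : ∀ u, ∑ w, qq q u w * y w ≤ 2 * Real.exp (-(10 * g / 16 * x)) + lam q u := by
    intro u
    rw [← Finset.sum_filter_add_sum_filter_not univ (fun w => w ∈ A) (fun w => qq q u w * y w)]
    have e1 : ∑ w ∈ univ.filter (fun w => w ∈ A), qq q u w * y w ≤
        2 * Real.exp (-(10 * g / 16 * x)) := by
      calc ∑ w ∈ univ.filter (fun w => w ∈ A), qq q u w * y w ≤
            ∑ _w ∈ univ.filter (fun w => w ∈ A), P * Real.exp (5 * g / 16 * x) := by
            apply Finset.sum_le_sum
            intro w hw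
            rw [mem_filter] at hw
            rw [hyA w hw.2]
            apply mul_le_mul_of_nonneg_right (qq_le q P hP0 hqP u w) (Real.exp_pos _).le
        _ = A.card * (P * Real.exp (5 * g / 16 * x)) := by
            rw [Finset.sum_const, nsmul_eq_mul]
            congr 2
            congr 1
            ext w
            simp
        _ ≤ 2 * Real.exp ((1 - g) * x) * (P * Real.exp (5 * g / 16 * x)) := by
            apply mul_le_mul_of_nonneg_right hAm3 (by positivity)
        _ = 2 * Real.exp (-(10 * g / 16 * x)) := by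
            rw [hP, show 2 * Real.exp ((1 - g) * x) * (Real.exp ((g / 16 - 1) * x) *
              Real.exp (5 * g / 16 * x)) = 2 * (Real.exp ((1 - g) * x) *
                (Real.exp ((g / 16 - 1) * x) * Real.exp (5 * g / 16 * x))) by ring,
              ← Real.exp_add, ← Real.exp_add]
            congr 2
            ring
    have e2 : ∑ w ∈ univ.filter (fun w => ¬ w ∈ A), qq q u w * y w ≤ lam q u := by
      calc ∑ w ∈ univ.filter (fun w => ¬ w ∈ A), qq q u w * y w =
            ∑ w ∈ univ.filter (fun w => ¬ w ∈ A), qq q u w := by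
            apply Finset.sum_congr rfl
            intro w hw
            rw [mem_filter] at hw
            rw [hyA' w hw.2, mul_one]
        _ ≤ ∑ w, qq q u w := Finset.sum_le_sum_of_subset_of_nonneg (filter_subset _ _)
            (fun w _ _ => qq_nonneg q h0 u w)
        _ = lam q u := sum_qq q u
    linarith
  have h4' : 4 ≤ Real.exp (3 * g / 16 * x) := g1a.trans (hexp _ _ (by nlinarith))
  obtain ⟨μ, hμd⟩ : ∃ μ : ℝ, μ = 2 * Real.exp (-(3 * g / 16 * x)) := ⟨_, rfl⟩
  have hμ0 : 0 ≤ μ := by rw [hμd]; positivity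
  have hμ1 : μ ≤ 1 / 2 := by
    rw [hμd, Real.exp_neg, ← div_eq_mul_inv, div_le_iff₀ (Real.exp_pos _)]
    linarith
  have hμ : ∀ u, ∑ w, qq q u w * y w ≤ μ * y u := by
    intro u
    refine (hsum u).trans ?_
    have e1 : 2 * Real.exp (-(10 * g / 16 * x)) ≤ Real.exp (-(3 * g / 16 * x)) := by
      calc 2 * Real.exp (-(10 * g / 16 * x)) ≤
            Real.exp (3 * g / 16 * x) * Real.exp (-(10 * g / 16 * x)) := by
            gcongr
            linarith
        _ ≤ Real.exp (-(3 * g / 16 * x)) := by
            rw [← Real.exp_add]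
            apply hexp
            nlinarith
    by_cases hu : u ∈ A
    · rw [hyA u hu, hμd]
      have e2 : Real.exp (-(3 * g / 16 * x)) * Real.exp (5 * g / 16 * x) =
          Real.exp (2 * g / 16 * x) := by
        rw [← Real.exp_add]
        congr 1
        ring
      have e3 : lam q u ≤ Real.exp (2 * g / 16 * x) := by
        refine (hlam u).trans (hexp _ _ ?_)
        nlinarith
      have e4 : Real.exp (-(3 * g / 16 * x)) ≤ Real.exp (2 * g / 16 * x) := by
        apply hexp
        nlinarith
      calc 2 * Real.exp (-(10 * g / 16 * x)) + lam q u ≤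
            Real.exp (2 * g / 16 * x) + Real.exp (2 * g / 16 * x) := by linarith
        _ = 2 * Real.exp (-(3 * g / 16 * x)) * Real.exp (5 * g / 16 * x) := by
            rw [mul_assoc, e2]
            ring
    · rw [hyA' u hu, hμd, mul_one]
      have e2 : lam q u ≤ Real.exp (-(3 * g / 16 * x)) := by
        refine ((hA2 u hu).trans hl).trans (hexp _ _ ?_)
        rw [hg]
        linarith
      linarith
  have hcyc := Pr_cycle q h0 h1 P hP0 hqP y hy1 μ hμ0 hμ1 hμ
  have hys : ∑ u, y u ≤ 3 * Real.exp x := by
    rw [← Finset.sum_filter_add_sum_filter_not univ (fun w => w ∈ A) y]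
    have e1 : ∑ w ∈ univ.filter (fun w => w ∈ A), y w ≤ 2 * Real.exp x := by
      calc ∑ w ∈ univ.filter (fun w => w ∈ A), y w =
            ∑ _w ∈ univ.filter (fun w => w ∈ A), Real.exp (5 * g / 16 * x) := by
            apply Finset.sum_congr rfl
            intro w hw
            rw [mem_filter] at hw
            exact hyA w hw.2
        _ = A.card * Real.exp (5 * g / 16 * x) := by
            rw [Finset.sum_const, nsmul_eq_mul]
            congr 2
            congr 1
            ext w
            simp
        _ ≤ 2 * Real.exp ((1 - g) * x) * Real.exp (5 * g / 16 * x) := by gcongr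
        _ ≤ 2 * Real.exp x := by
            rw [mul_assoc, ← Real.exp_add]
            have : Real.exp ((1 - g) * x + 5 * g / 16 * x) ≤ Real.exp x := by
              apply hexp
              nlinarith
            linarith
    have e2 : ∑ w ∈ univ.filter (fun w => ¬ w ∈ A), y w ≤ Real.exp x := by
      calc ∑ w ∈ univ.filter (fun w => ¬ w ∈ A), y w =
            ∑ _w ∈ univ.filter (fun w => ¬ w ∈ A), (1 : ℝ) := by
            apply Finset.sum_congr rfl
            intro w hw
            rw [mem_filter] at hw
            exact hyA' w hw.2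
        _ = ((univ.filter (fun w => ¬ w ∈ A)).card : ℝ) := by simp
        _ ≤ n := by
            have := card_le_univ (univ.filter (fun w : Fin n => ¬ w ∈ A))
            rw [Fintype.card_fin] at this
            exact_mod_cast this
        _ = Real.exp x := hnx
    linarith
  have hfin : Pr (wq q) (fun ω => ¬ Good (Gr ω)) ≤ η := by
    have h2 : Pr (wq q) (fun ω => ¬ Good (Gr ω)) ≤
        Pr (wq q) (fun ω => ∃ j < Fintype.card (Fin n), ∃ u, Cyc (Gr ω) j u) := by
      apply Pr_mono hw
      intro ω hω
      by_contra hcon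
      push Not at hcon
      apply hω
      intro D hD _ L hsym hL
      exact acyclic_LC (Gr ω) D hD hcon L hsym hL
    refine h2.trans (hcyc.trans ?_)
    calc P * (∑ u, y u) * (2 * μ) ≤ P * (3 * Real.exp x) * (2 * μ) := by gcongr
      _ = 12 * Real.exp (-(2 * g / 16 * x)) := by
          rw [hP, hμd, show Real.exp ((g / 16 - 1) * x) * (3 * Real.exp x) *
            (2 * (2 * Real.exp (-(3 * g / 16 * x)))) = 12 * (Real.exp ((g / 16 - 1) * x) *
              (Real.exp x * Real.exp (-(3 * g / 16 * x)))) by ring, ← Real.exp_add,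
            ← Real.exp_add]
          congr 2
          ring
      _ ≤ η := by
          rw [Real.exp_neg, ← div_eq_mul_inv, div_le_iff₀ (Real.exp_pos _)]
          calc (12 : ℝ) = η * (12 / η) := by
                field_simp
            _ ≤ η * Real.exp (g / 16 * x) := by gcongr
            _ ≤ η * Real.exp (2 * g / 16 * x) := by
                have : Real.exp (g / 16 * x) ≤ Real.exp (2 * g / 16 * x) := by
                  apply hexp
                  nlinarith
                gcongr
  rw [Pr_not hw] at hfin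
  linarith

end Pool.Agent.K4H76.LR2
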