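import Pool.Agent.K4H76.LR2.HReg1
import Pool.Agent.K4H76.LR2.HReg2
import Pool.Agent.K4H76.LR2.HReg3

/-!
# All sparse random graphs with independent edges
-/

set_option autoImplicit false

namespace Pool.Agent.K4H76.LR2

open Finset Pool.Agent.K4H76.LR

theorem main : ∃ β : ℝ, 0 < β ∧ ∀ η : ℝ, 0 < η → ∃ N : ℕ, ∀ n : ℕ, N ≤ n → ∀ q : Ed n → ℝ,
    (∀ i, 0 ≤ q i) → (∀ i, q i ≤ 1) → (∀ i, q i ≤ (n : ℝ) ^ (β - 1)) →
    1 - η ≤ Pr (wq q) (fun ω => Good (Gr ω)) := by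
  refine ⟨1 / 29491200 / 16, by norm_num, ?_⟩
  intro η hη
  obtain ⟨g, hg⟩ : ∃ g : ℝ, g = 1 / 29491200 := ⟨_, rfl⟩
  obtain ⟨x1, h1⟩ := regime1 η hη g hg
  obtain ⟨x2, h2⟩ := regime2 η hη g hg
  obtain ⟨x3, h3⟩ := regime3 η hη g hg
  obtain ⟨N, hN⟩ := exists_nat_ge (Real.exp (max x1 (max x2 x3)))
  refine ⟨max 1 N, ?_⟩
  intro n hn q hq0 hq1 hqn
  have hn1 : 1 ≤ n := (le_max_left _ _).trans hn
  have hn0 : (0 : ℝ) < n := by exact_mod_cast hn1
  have hnN : (N : ℝ) ≤ n := by exact_mod_cast (le_max_right _ _).trans hn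
  have hx : max x1 (max x2 x3) ≤ Real.log n := by
    rw [Real.le_log_iff_exp_le hn0]
    exact hN.trans hnN
  simp only [max_le_iff] at hx
  obtain ⟨k1, k2, k3⟩ := hx
  have hlog : 0 ≤ Real.log n := Real.log_nonneg (by exact_mod_cast hn1)
  have hqP : ∀ i, q i ≤ Real.exp ((g / 16 - 1) * Real.log n) := by
    intro i
    have := hqn i
    rw [Real.rpow_def_of_pos hn0, mul_comm (Real.log (n : ℝ))] at this
    rw [hg]
    exact this
  have hM : ⌈Real.exp ((1 - g) * Real.log n)⌉₊ ≤ n := by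
    apply Nat.ceil_le.2
    calc Real.exp ((1 - g) * Real.log n) ≤ Real.exp (Real.log n) := by
          apply Real.exp_le_exp.2
          have hg0 : 0 < g := by rw [hg]; norm_num
          nlinarith
      _ = n := Real.exp_log hn0
  obtain ⟨A, hA, hA2⟩ := exists_top (lam q) _ hM
  have hAne : A.Nonempty := by
    rw [← card_pos, hA]
    exact Nat.ceil_pos.2 (Real.exp_pos _)
  obtain ⟨v, hv, hvmin⟩ := exists_min_image A (lam q) hAne
  have hB1 : ∀ w ∈ A, lam q v ≤ lam q w := hvmin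
  have hB2 : ∀ w, w ∉ A → lam q w ≤ lam q v := fun w hw => hA2 v hv w hw
  by_cases c1 : Real.log n / 100000 ≤ lam q v
  · exact h1 n k1 q hq0 hq1 hqP A hA (lam q v) c1 hB1 hB2
  · push Not at c1
    by_cases c2 : Real.exp (-(1 / 20000 * Real.log n)) ≤ lam q v
    · exact h2 n k2 q hq0 hq1 hqP A hA (lam q v) c2 c1.le hB1 hB2
    · push Not at c2
      exact h3 n k3 q hq0 hq1 hqP A hA (lam q v) c2.le hB2

open Classical in
theorem prob_eq (n : ℕ) (q : {e : Sym2 (Fin n) // ¬ e.IsDiag} → ℝ)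
    (P : SimpleGraph (Fin n) → Prop) :
    (∑ G : SimpleGraph (Fin n), if P G then
      (∏ e : {e : Sym2 (Fin n) // ¬ e.IsDiag}, if e.1 ∈ G.edgeSet then q e else 1 - q e)
      else 0) =
    Pr (wq (ι := Ed n) q) (fun ω => P (Gr ω)) := by
  unfold Pr Ex
  rw [← Equiv.sum_comp (eqv n)]
  apply Finset.sum_congr rfl
  intro G _
  have h1 : Gr (eqv n G) = G := (eqv n).left_inv G
  show _ = _ * (if P (Gr (eqv n G)) then (1 : ℝ) else 0)
  rw [h1]
  by_cases h : P G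
  · rw [if_pos h, if_pos h, mul_one]
    apply Finset.prod_congr rfl
    intro e _
    unfold wq eqv
    by_cases he : e.1 ∈ G.edgeSet
    · simp [he]
    · simp [he]
  · rw [if_neg h, if_neg h, mul_zero]

end Pool.Agent.K4H76.LR2
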