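import Pool.Agent.K4H76.LR2.HGr
import Pool.Agent.K4H76.LR.Simple

/-!
# Paths and cycles: graphs without cycles, and weighted counting of paths
-/

set_option autoImplicit false
set_option linter.unusedSectionVars false

namespace Pool.Agent.K4H76.LR2

open Finset Pool.Agent.H162R2.Sparse Pool.Agent.K4H76.LR

section
variable {V : Type} [Fintype V] [DecidableEq V]

/-- there is a path with `k` edges from `u` to `v` with all vertices outside `S` -/
def Pth (G : SimpleGraph V) : Finset V → ℕ → V → V → Prop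
  | S, 0, u, v => u = v ∧ u ∉ S
  | S, k + 1, u, v => u ∉ S ∧ ∃ w, G.Adj u w ∧ Pth G (insert u S) k w v

theorem Pth.notMem {G : SimpleGraph V} : ∀ {k : ℕ} {S : Finset V} {u v : V},
    Pth G S k u v → u ∉ S
  | 0, _, _, _, h => h.2
  | _ + 1, _, _, _, h => h.1

theorem Pth.mono {G : SimpleGraph V} : ∀ {k : ℕ} {S S' : Finset V} {u v : V},
    Pth G S k u v → S' ⊆ S → Pth G S' k u v
  | 0, _, _, _, _, h, hS => ⟨h.1, fun h' => h.2 (hS h')⟩
  | _ + 1, _, _, _, _, h, hS => by
      obtain ⟨h1, w, h2, h3⟩ := h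
      exact ⟨fun h' => h1 (hS h'), w, h2, h3.mono (insert_subset_insert _ hS)⟩

theorem Pth.card {G : SimpleGraph V} : ∀ {k : ℕ} {S : Finset V} {u v : V},
    Pth G S k u v → k + 1 + S.card ≤ Fintype.card V
  | 0, S, u, _, h => by
      have h1 := card_le_univ (insert u S)
      rw [card_insert_of_notMem h.2] at h1
      omega
  | k + 1, S, u, _, h => by
      obtain ⟨h1, w, _, h3⟩ := h
      have h4 := h3.card
      rw [card_insert_of_notMem h1] at h4
      omega

theorem Pth.split {G : SimpleGraph V} (x : V) : ∀ {k : ℕ} {S : Finset V} {u v : V},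
    Pth G S k u v → Pth G (insert x S) k u v ∨ ∃ j ≤ k, Pth G S j u x
  | 0, S, u, v, h => by
      by_cases hx : u = x
      · right
        exact ⟨0, le_rfl, hx, h.2⟩
      · left
        refine ⟨h.1, ?_⟩
        rw [mem_insert]
        push Not
        exact ⟨hx, h.2⟩
  | k + 1, S, u, v, h => by
      obtain ⟨h1, w, h2, h3⟩ := h
      by_cases hx : u = x
      · right
        exact ⟨0, Nat.zero_le _, hx, h1⟩
      · rcases h3.split x with h4 | ⟨j, hj, h4⟩
        · left
          refine ⟨?_, w, h2, ?_⟩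
          · rw [mem_insert]
            push Not
            exact ⟨hx, h1⟩
          · rw [insert_comm]
            exact h4
        · right
          exact ⟨j + 1, by omega, h1, w, h2, h4⟩

/-- there is a cycle through `u` with `j + 2` edges -/
def Cyc (G : SimpleGraph V) (j : ℕ) (u : V) : Prop :=
  ∃ w x, w ≠ x ∧ G.Adj u w ∧ G.Adj u x ∧ Pth G {u} j w x

theorem exists_cyc (G : SimpleGraph V) (X : Finset V) (hX : X.Nonempty)
    (h : ∀ v ∈ X, 2 ≤ ((nb G v).filter (fun w => w ∈ X)).card) :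
    ∃ j < Fintype.card V, ∃ u, Cyc G j u := by
  classical
  have hbd : ∀ k, (∃ u v, Pth G Xᶜ k u v) → k ≤ Fintype.card V := by
    rintro k ⟨u, v, h⟩
    have := h.card
    omega
  have hex : ∃ k, ∃ u v, Pth G Xᶜ k u v := by
    obtain ⟨u, hu⟩ := hX
    exact ⟨0, u, u, rfl, by simpa using hu⟩
  obtain ⟨k₀, hk₀⟩ := hex
  set k := Nat.findGreatest (fun k => ∃ u v, Pth G Xᶜ k u v) (Fintype.card V) with hk
  obtain ⟨u, v, huv⟩ : ∃ u v, Pth G Xᶜ k u v :=
    Nat.findGreatest_spec (P := fun k => ∃ u v, Pth G Xᶜ k u v) (hbd k₀ hk₀) hk₀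
  have hmax : ¬ ∃ u v, Pth G Xᶜ (k + 1) u v := by
    intro hcon
    have h1 := Nat.le_findGreatest (P := fun k => ∃ u v, Pth G Xᶜ k u v) (hbd _ hcon) hcon
    omega
  have huX : u ∈ X := by
    have := huv.notMem
    simpa using this
  -- two neighbours
  have h2 := h u huX
  obtain ⟨a, ha, b, hb, hab⟩ := one_lt_card.1 (by omega :
    1 < ((nb G u).filter (fun w => w ∈ X)).card)
  rw [mem_filter, mem_nb] at ha hb
  have key : ∀ y, G.Adj u y → y ∈ X → ¬ Pth G (insert y Xᶜ) k u v := by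
    intro y huy hy hcon
    apply hmax
    refine ⟨y, v, ?_, u, huy.symm, hcon⟩
    simpa using hy
  rcases Nat.eq_zero_or_pos k with hk0 | hk0
  · exfalso
    apply key a ha.1 ha.2
    rw [hk0] at huv ⊢
    refine ⟨huv.1, ?_⟩
    rw [mem_insert]
    push Not
    exact ⟨ha.1.ne, huv.2⟩
  · obtain ⟨k', hk'⟩ := Nat.exists_eq_succ_of_ne_zero (by omega : k ≠ 0)
    rw [Nat.succ_eq_add_one] at hk'
    have huv' := huv
    rw [hk'] at huv'
    obtain ⟨h3, w, h4, h5⟩ := huv'
    obtain ⟨y, hy1, hy2, hy3⟩ : ∃ y, y ≠ w ∧ G.Adj u y ∧ y ∈ X := by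
      by_cases haw : a = w
      · exact ⟨b, fun hbw => hab (haw.trans hbw.symm), hb.1, hb.2⟩
      · exact ⟨a, haw, ha.1, ha.2⟩
    rcases h5.split y with h6 | ⟨j, hj, h6⟩
    · exfalso
      apply key y hy2 hy3
      rw [hk']
      refine ⟨?_, w, h4, ?_⟩
      · rw [mem_insert]
        push Not
        exact ⟨hy2.ne, h3⟩
      · rw [insert_comm]
        exact h6
    · refine ⟨j, ?_, u, w, y, hy1.symm, h4, hy2, h6.mono ?_⟩
      · have := hbd k ⟨u, v, huv⟩
        omega
      · intro z hz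
        rw [mem_singleton] at hz
        rw [hz]
        exact mem_insert_self _ _

/-- graphs without cycles -/
theorem acyclic_LC (G : SimpleGraph V) (D : ℕ) (hdeg : ∀ v, dg G v ≤ D)
    (hac : ∀ j < Fintype.card V, ∀ u, ¬ Cyc G j u)
    (L : V → V → Finset ℕ) (hsym : ∀ x y, L x y = L y x)
    (hL : ∀ x y, G.Adj x y → D ≤ (L x y).card) : LC G L := by
  classical
  have hX : ∀ X : Finset V, X.Nonempty → ∃ v ∈ X, ((nb G v).filter (fun w => w ∈ X)).card ≤ 1 := by
    intro X hX
    by_contra hcon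
    push Not at hcon
    obtain ⟨j, hj, u, hu⟩ := exists_cyc G X hX (fun v hv => hcon v hv)
    exact hac j hj u hu
  have main : ∀ (n : ℕ) (H : SimpleGraph V), (pr H).card = n → (∀ a b, H.Adj a b → G.Adj a b) →
      LC H L := by
    intro n
    induction n using Nat.strong_induction_on with
    | _ n ih =>
    intro H hn hHG
    by_cases hE : ∃ x y, H.Adj x y
    · obtain ⟨x0, y0, hxy0⟩ := hE
      set X : Finset V := univ.filter (fun v => 0 < dg H v) with hXdef
      have hx0 : x0 ∈ X := by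
        rw [hXdef, mem_filter]
        refine ⟨mem_univ _, ?_⟩
        unfold dg
        exact card_pos.2 ⟨y0, (mem_nb _ _ _).2 hxy0⟩
      obtain ⟨u, huX, hu1⟩ := hX X ⟨x0, hx0⟩
      have hu : dg H u = 1 := by
        rw [hXdef, mem_filter] at huX
        have h2 : dg H u ≤ 1 := by
          refine le_trans ?_ hu1
          unfold dg
          apply card_le_card
          intro w hw
          rw [mem_nb] at hw
          rw [mem_filter, mem_nb]
          refine ⟨hHG _ _ hw, ?_⟩
          rw [hXdef, mem_filter]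
          refine ⟨mem_univ _, ?_⟩
          unfold dg
          exact card_pos.2 ⟨u, (mem_nb _ _ _).2 hw.symm⟩
        omega
      obtain ⟨v, hv⟩ : ∃ v, H.Adj u v := by
        unfold dg at hu
        obtain ⟨v, hv⟩ := card_pos.1 (by omega : 0 < (nb H u).card)
        exact ⟨v, (mem_nb _ _ _).1 hv⟩
      have hmono : ∀ a b, (cutE H u v).Adj a b → H.Adj a b := fun a b h =>
        ((cutE_adj H u v a b).1 h).1
      apply ext_edge H u v hv L hsym
      · have h1 := (dg_mono hHG v).trans (hdeg v)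
        have h2 := hL u v (hHG _ _ hv)
        omega
      · apply ih (pr (cutE H u v)).card _ (cutE H u v) rfl
        · intro a b hab
          exact hHG _ _ (hmono a b hab)
        · rw [← hn]
          apply pr_card_lt hmono u v hv
          rw [cutE_adj]
          tauto
    · push Not at hE
      exact ⟨fun _ _ => 0, fun x y h => absurd h (hE x y), fun x y h => absurd h (hE x y),
        fun x y z h => absurd h (hE x y)⟩
  exact main _ G rfl (fun _ _ h => h)

end

/-! ### counting -/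

section
variable {n : ℕ}

/-- the probability of a pair, `0` on the diagonal -/
noncomputable def qq (q : Ed n → ℝ) (u v : Fin n) : ℝ := by
  classical exact if h : ¬ (s(u, v) : Sym2 (Fin n)).IsDiag then q ⟨s(u, v), h⟩ else 0

theorem qq_nonneg (q : Ed n → ℝ) (h0 : ∀ i, 0 ≤ q i) (u v : Fin n) : 0 ≤ qq q u v := by
  unfold qq
  split_ifs
  · exact le_rfl
  · exact h0 _

theorem qq_le (q : Ed n → ℝ) (P : ℝ) (hP0 : 0 ≤ P) (hP : ∀ i, q i ≤ P) (u v : Fin n) :
    qq q u v ≤ P := by
  unfold qq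
  split_ifs
  · exact hP0
  · exact hP _

theorem sum_qq (q : Ed n → ℝ) (u : Fin n) : ∑ v, qq q u v = lam q u := by
  classical
  unfold lam
  symm
  rw [← Finset.sum_erase univ (a := u) (f := fun v => qq q u v) (by
    unfold qq
    rw [dif_neg]
    simp)]
  symm
  refine Finset.sum_bij (fun v hv => ⟨s(u, v), by
    rw [Sym2.mk_isDiag_iff]
    exact (mem_erase.1 hv).1.symm⟩) ?_ ?_ ?_ ?_
  · intro v hv
    unfold st
    rw [mem_filter]
    exact ⟨mem_univ _, v, hv, rfl⟩
  · intro v hv w hw h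
    have h1 := congrArg Subtype.val h
    simp only at h1
    rw [Sym2.eq_iff] at h1
    rcases h1 with h1 | h1
    · exact h1.2
    · rw [h1.2, ← h1.1]
  · intro e he
    unfold st at he
    rw [mem_filter] at he
    obtain ⟨_, v, hv, h⟩ := he
    exact ⟨v, hv, Subtype.ext h.symm⟩
  · intro v hv
    unfold qq
    rw [dif_pos]

theorem Pr_adj (q : Ed n → ℝ) (h0 : ∀ i, 0 ≤ q i) (h1 : ∀ i, q i ≤ 1) (u v : Fin n) :
    Pr (wq q) (fun ω => (Gr ω).Adj u v) ≤ qq q u v := by
  classical
  have hw := wq_wt q h0 h1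
  unfold qq
  by_cases h : ¬ (s(u, v) : Sym2 (Fin n)).IsDiag
  · rw [dif_pos h]
    have h2 := Pr_coord hw (⟨s(u, v), h⟩ : Ed n) (fun b => b = true)
    rw [P1_wq] at h2
    refine le_trans (Pr_mono hw ?_) h2.le
    rintro ω ⟨_, h3⟩
    exact h3
  · rw [dif_neg h]
    have h2 : Pr (wq q) (fun ω => (Gr ω).Adj u v) ≤ 0 := by
      have h3 := Pr_mono hw (P := fun ω => (Gr ω).Adj u v) (Q := fun _ => False) (by
        rintro ω ⟨h4, _⟩
        exact h h4)
      refine h3.trans (le_of_eq ?_)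
      have h5 := Ex_const hw 0
      refine Eq.trans ?_ h5
      unfold Pr
      congr 1
      funext ω
      exact if_neg (fun h => h)
    exact h2

theorem Pth_congr (ω ω' : Ed n → Bool) : ∀ (k : ℕ) (S : Finset (Fin n)) (u v : Fin n),
    (∀ e : Ed n, (∀ x ∈ S, x ∉ e.1) → ω e = ω' e) → (Pth (Gr ω) S k u v → Pth (Gr ω') S k u v)
  | 0, _, _, _, _, h => h
  | k + 1, S, u, v, hω, h => by
      obtain ⟨h1, w, ⟨h2, h2'⟩, h3⟩ := h
      refine ⟨h1, w, ⟨h2, ?_⟩, ?_⟩
      · rw [← hω ⟨s(u, w), h2⟩]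
        · exact h2'
        · intro x hx hxe
          simp only [Sym2.mem_iff] at hxe
          rcases hxe with rfl | rfl
          · exact h1 hx
          · exact h3.notMem (mem_insert_of_mem hx)
      · exact Pth_congr ω ω' k (insert u S) w v (fun e he => hω e
          (fun x hx => he x (mem_insert_of_mem hx))) h3

/-- the weighted number of the walks -/
noncomputable def Bk (q : Ed n → ℝ) : ℕ → Fin n → Fin n → ℝ
  | 0, u, v => if u = v then 1 else 0
  | k + 1, u, v => ∑ w, qq q u w * Bk q k w v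

theorem Bk_succ (q : Ed n → ℝ) (k : ℕ) (u v : Fin n) :
    Bk q (k + 1) u v = ∑ w, qq q u w * Bk q k w v := rfl

theorem Bk_nonneg (q : Ed n → ℝ) (h0 : ∀ i, 0 ≤ q i) : ∀ (k : ℕ) (u v : Fin n), 0 ≤ Bk q k u v
  | 0, u, v => by
      unfold Bk
      split_ifs <;> norm_num
  | k + 1, u, v => by
      unfold Bk
      exact Finset.sum_nonneg (fun w _ => mul_nonneg (qq_nonneg q h0 u w) (Bk_nonneg q h0 k w v))

theorem Pr_Pth (q : Ed n → ℝ) (h0 : ∀ i, 0 ≤ q i) (h1 : ∀ i, q i ≤ 1) :
    ∀ (k : ℕ) (S : Finset (Fin n)) (u v : Fin n),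
      Pr (wq q) (fun ω => Pth (Gr ω) S k u v) ≤ Bk q k u v := by
  classical
  have hw := wq_wt q h0 h1
  intro k
  induction k with
  | zero =>
      intro S u v
      unfold Bk
      split_ifs with h
      · exact Pr_le_one hw _
      · have h3 := Pr_mono hw (P := fun ω => Pth (Gr ω) S 0 u v) (Q := fun _ => False) (by
          intro ω h4
          exact h h4.1)
        refine h3.trans (le_of_eq ?_)
        have h5 := Ex_const hw 0
        refine Eq.trans ?_ h5
        unfold Pr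
        congr 1
        funext ω
        exact if_neg (fun h => h)
  | succ k ih =>
      intro S u v
      have h2 : Pr (wq q) (fun ω => Pth (Gr ω) S (k + 1) u v) ≤
          Pr (wq q) (fun ω => ∃ w ∈ (univ : Finset (Fin n)),
            (Gr ω).Adj u w ∧ Pth (Gr ω) (insert u S) k w v) := by
        apply Pr_mono hw
        rintro ω ⟨_, w, h3, h4⟩
        exact ⟨w, mem_univ _, h3, h4⟩
      refine h2.trans ((Pr_exists _ hw (fun w ω =>
        (Gr ω).Adj u w ∧ Pth (Gr ω) (insert u S) k w v)).trans ?_)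
      unfold Bk
      apply Finset.sum_le_sum
      intro w _
      rw [Pr_indep hw (fun e => u ∈ e.1) (fun ω => (Gr ω).Adj u w)
        (fun ω => Pth (Gr ω) (insert u S) k w v)]
      · exact mul_le_mul (Pr_adj q h0 h1 u w) (ih _ _ _) (Pr_nonneg hw _) (qq_nonneg q h0 u w)
      · intro ω ω' h
        constructor
        · rintro ⟨h3, h4⟩
          exact ⟨h3, by rw [← h ⟨s(u, w), h3⟩ (by simp)]; exact h4⟩
        · rintro ⟨h3, h4⟩
          exact ⟨h3, by rw [h ⟨s(u, w), h3⟩ (by simp)]; exact h4⟩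
      · intro ω ω' h
        constructor
        · exact Pth_congr ω ω' k _ w v (fun e he => h e (he u (mem_insert_self _ _)))
        · exact Pth_congr ω' ω k _ w v (fun e he => (h e (he u (mem_insert_self _ _))).symm)

/-- the probability of a cycle through `u` -/
theorem Pr_Cyc (q : Ed n → ℝ) (h0 : ∀ i, 0 ≤ q i) (h1 : ∀ i, q i ≤ 1) (P : ℝ) (hP0 : 0 ≤ P)
    (hP : ∀ i, q i ≤ P) (j : ℕ) (u : Fin n) :
    Pr (wq q) (fun ω => Cyc (Gr ω) (j + 1) u) ≤ P * ∑ w, qq q u w * ∑ x, Bk q (j + 1) w x := by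
  classical
  have hw := wq_wt q h0 h1
  have h2 : Pr (wq q) (fun ω => Cyc (Gr ω) (j + 1) u) ≤
      Pr (wq q) (fun ω => ∃ p ∈ (univ : Finset (Fin n × Fin n)), (p.1 ≠ p.2 ∧ (Gr ω).Adj u p.1 ∧
        (Gr ω).Adj u p.2) ∧ Pth (Gr ω) {u} (j + 1) p.1 p.2) := by
    apply Pr_mono hw
    rintro ω ⟨w, x, h3, h4, h5, h6⟩
    exact ⟨(w, x), mem_univ _, ⟨h3, h4, h5⟩, h6⟩
  refine h2.trans ((Pr_exists _ hw (fun (p : Fin n × Fin n) ω => (p.1 ≠ p.2 ∧ (Gr ω).Adj u p.1 ∧
        (Gr ω).Adj u p.2) ∧ Pth (Gr ω) {u} (j + 1) p.1 p.2)).trans ?_)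
  rw [Fintype.sum_prod_type, Finset.mul_sum]
  apply Finset.sum_le_sum
  intro w _
  rw [Finset.mul_sum, Finset.mul_sum]
  apply Finset.sum_le_sum
  intro x _
  rw [Pr_indep hw (fun e => u ∈ e.1) (fun ω => w ≠ x ∧ (Gr ω).Adj u w ∧ (Gr ω).Adj u x)
    (fun ω => Pth (Gr ω) {u} (j + 1) w x)]
  · have h3 : Pr (wq q) (fun ω => w ≠ x ∧ (Gr ω).Adj u w ∧ (Gr ω).Adj u x) ≤ qq q u w * P := by
      by_cases hwx : w = x
      · have h4 : Pr (wq q) (fun ω => w ≠ x ∧ (Gr ω).Adj u w ∧ (Gr ω).Adj u x) ≤ 0 := by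
          have h5 := Pr_mono hw (P := fun ω => w ≠ x ∧ (Gr ω).Adj u w ∧ (Gr ω).Adj u x)
            (Q := fun _ => False) (by
            rintro ω ⟨h6, _⟩
            exact h6 hwx)
          refine h5.trans (le_of_eq ?_)
          have h5 := Ex_const hw 0
          refine Eq.trans ?_ h5
          unfold Pr
          congr 1
          funext ω
          exact if_neg (fun h => h)
        exact h4.trans (mul_nonneg (qq_nonneg q h0 u w) hP0)
      · have h4 : Pr (wq q) (fun ω => w ≠ x ∧ (Gr ω).Adj u w ∧ (Gr ω).Adj u x) ≤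
            Pr (wq q) (fun ω => (Gr ω).Adj u w ∧ (Gr ω).Adj u x) :=
          Pr_mono hw (fun ω h => h.2)
        refine h4.trans ?_
        rw [Pr_indep hw (fun e => e.1 = s(u, w)) (fun ω => (Gr ω).Adj u w)
          (fun ω => (Gr ω).Adj u x)]
        · exact mul_le_mul (Pr_adj q h0 h1 u w)
            ((Pr_adj q h0 h1 u x).trans (qq_le q P hP0 hP u x)) (Pr_nonneg hw _)
            (qq_nonneg q h0 u w)
        · intro ω ω' h
          constructor
          · rintro ⟨h3, h4⟩
            exact ⟨h3, by rw [← h ⟨s(u, w), h3⟩ rfl]; exact h4⟩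
          · rintro ⟨h3, h4⟩
            exact ⟨h3, by rw [h ⟨s(u, w), h3⟩ rfl]; exact h4⟩
        · intro ω ω' h
          have hne : (s(u, x) : Sym2 (Fin n)) ≠ s(u, w) := by
            intro h5
            rw [Sym2.eq_iff] at h5
            rcases h5 with h5 | h5
            · exact hwx h5.2.symm
            · exact hwx (h5.1 ▸ h5.2.symm)
          constructor
          · rintro ⟨h3, h4⟩
            exact ⟨h3, by rw [← h ⟨s(u, x), h3⟩ hne]; exact h4⟩
          · rintro ⟨h3, h4⟩
            exact ⟨h3, by rw [h ⟨s(u, x), h3⟩ hne]; exact h4⟩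
    calc Pr (wq q) (fun ω => w ≠ x ∧ (Gr ω).Adj u w ∧ (Gr ω).Adj u x) *
          Pr (wq q) (fun ω => Pth (Gr ω) {u} (j + 1) w x) ≤
          (qq q u w * P) * Bk q (j + 1) w x :=
          mul_le_mul h3 (Pr_Pth q h0 h1 (j + 1) _ _ _) (Pr_nonneg hw _)
            (mul_nonneg (qq_nonneg q h0 u w) hP0)
      _ = P * (qq q u w * Bk q (j + 1) w x) := by ring
  · intro ω ω' h
    have h3 : ∀ y, (Gr ω).Adj u y ↔ (Gr ω').Adj u y := by
      intro y
      constructor
      · rintro ⟨h3, h4⟩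
        exact ⟨h3, by rw [← h ⟨s(u, y), h3⟩ (by simp)]; exact h4⟩
      · rintro ⟨h3, h4⟩
        exact ⟨h3, by rw [h ⟨s(u, y), h3⟩ (by simp)]; exact h4⟩
    rw [h3 w, h3 x]
  · intro ω ω' h
    constructor
    · exact Pth_congr ω ω' (j + 1) _ w x (fun e he => h e (he u (mem_singleton_self _)))
    · exact Pth_congr ω' ω (j + 1) _ w x (fun e he => (h e (he u (mem_singleton_self _))).symm)

/-- weights which decrease -/
theorem Bk_sum (q : Ed n → ℝ) (h0 : ∀ i, 0 ≤ q i) (y : Fin n → ℝ) (hy : ∀ v, 1 ≤ y v) (μ : ℝ)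
    (hμ0 : 0 ≤ μ) (hμ : ∀ u, ∑ w, qq q u w * y w ≤ μ * y u) :
    ∀ (k : ℕ) (u : Fin n), ∑ x, Bk q k u x * y x ≤ μ ^ k * y u := by
  classical
  intro k
  induction k with
  | zero =>
      intro u
      unfold Bk
      simp
  | succ k ih =>
      intro u
      have h2 : ∑ x, Bk q (k + 1) u x * y x = ∑ w, qq q u w * ∑ x, Bk q k w x * y x := by
        simp only [Bk_succ, Finset.sum_mul, Finset.mul_sum]
        rw [Finset.sum_comm]
        apply Finset.sum_congr rfl
        intro w _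
        apply Finset.sum_congr rfl
        intro x _
        ring
      rw [h2]
      calc ∑ w, qq q u w * ∑ x, Bk q k w x * y x ≤ ∑ w, qq q u w * (μ ^ k * y w) := by
            apply Finset.sum_le_sum
            intro w _
            exact mul_le_mul_of_nonneg_left (ih w) (qq_nonneg q h0 u w)
        _ = μ ^ k * ∑ w, qq q u w * y w := by
            rw [Finset.mul_sum]
            apply Finset.sum_congr rfl
            intro w _
            ring
        _ ≤ μ ^ k * (μ * y u) := by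
            apply mul_le_mul_of_nonneg_left (hμ u) (by positivity)
        _ = μ ^ (k + 1) * y u := by
            rw [pow_succ]
            ring

/-- no cycles -/
theorem Pr_cycle (q : Ed n → ℝ) (h0 : ∀ i, 0 ≤ q i) (h1 : ∀ i, q i ≤ 1) (P : ℝ) (hP0 : 0 ≤ P)
    (hP : ∀ i, q i ≤ P) (y : Fin n → ℝ) (hy : ∀ v, 1 ≤ y v) (μ : ℝ)
    (hμ0 : 0 ≤ μ) (hμ1 : μ ≤ 1 / 2) (hμ : ∀ u, ∑ w, qq q u w * y w ≤ μ * y u) :
    Pr (wq q) (fun ω => ∃ j < Fintype.card (Fin n), ∃ u, Cyc (Gr ω) j u) ≤
      P * (∑ u, y u) * (2 * μ) := by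
  classical
  have hw := wq_wt q h0 h1
  have h2 : Pr (wq q) (fun ω => ∃ j < Fintype.card (Fin n), ∃ u, Cyc (Gr ω) j u) ≤
      Pr (wq q) (fun ω => ∃ j ∈ Finset.Icc 1 n, ∃ u ∈ (univ : Finset (Fin n)),
        Cyc (Gr ω) ((j - 1) + 1) u) := by
    apply Pr_mono hw
    rintro ω ⟨j, hj, u, hu⟩
    rw [Fintype.card_fin] at hj
    obtain ⟨w, x, h3, h4, h5, h6⟩ := hu
    rcases Nat.eq_zero_or_pos j with hj0 | hj0
    · subst hj0
      exact absurd h6.1 h3
    · refine ⟨j, mem_Icc.2 ⟨hj0, by omega⟩, u, mem_univ _, ?_⟩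
      have : j - 1 + 1 = j := by omega
      rw [this]
      exact ⟨w, x, h3, h4, h5, h6⟩
  refine h2.trans ((Pr_exists _ hw (fun j ω => ∃ u ∈ (univ : Finset (Fin n)),
        Cyc (Gr ω) ((j - 1) + 1) u)).trans ?_)
  have h3 : ∀ j ∈ Finset.Icc 1 n, Pr (wq q) (fun ω => ∃ u ∈ (univ : Finset (Fin n)),
        Cyc (Gr ω) ((j - 1) + 1) u) ≤ P * (∑ u, y u) * μ ^ j := by
    intro j hj
    rw [mem_Icc] at hj
    refine (Pr_exists _ hw (fun u ω => Cyc (Gr ω) ((j - 1) + 1) u)).trans ?_
    have h4 : ∀ u ∈ (univ : Finset (Fin n)), Pr (wq q) (fun ω => Cyc (Gr ω) ((j - 1) + 1) u) ≤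
        P * y u * μ ^ j := by
      intro u _
      refine (Pr_Cyc q h0 h1 P hP0 hP (j - 1) u).trans ?_
      have h5 : ∀ w, ∑ x, Bk q (j - 1 + 1) w x ≤ μ ^ j * y w := by
        intro w
        have h6 := Bk_sum q h0 y hy μ hμ0 hμ (j - 1 + 1) w
        have h7 : j - 1 + 1 = j := by omega
        rw [h7] at h6 ⊢
        refine le_trans ?_ h6
        apply Finset.sum_le_sum
        intro x _
        have := Bk_nonneg q h0 j w x
        have := hy x
        nlinarith
      have h8 : ∑ w, qq q u w * ∑ x, Bk q (j - 1 + 1) w x ≤ μ ^ j * (μ * y u) := by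
        calc ∑ w, qq q u w * ∑ x, Bk q (j - 1 + 1) w x ≤ ∑ w, qq q u w * (μ ^ j * y w) := by
              apply Finset.sum_le_sum
              intro w _
              exact mul_le_mul_of_nonneg_left (h5 w) (qq_nonneg q h0 u w)
          _ = μ ^ j * ∑ w, qq q u w * y w := by
              rw [Finset.mul_sum]
              apply Finset.sum_congr rfl
              intro w _
              ring
          _ ≤ μ ^ j * (μ * y u) := mul_le_mul_of_nonneg_left (hμ u) (by positivity)
      calc P * ∑ w, qq q u w * ∑ x, Bk q (j - 1 + 1) w x ≤ P * (μ ^ j * (μ * y u)) := by gcongr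
        _ ≤ P * (μ ^ j * (1 * y u)) := by
            have := hy u
            gcongr
            linarith
        _ = P * y u * μ ^ j := by ring
    refine (Finset.sum_le_sum h4).trans (le_of_eq ?_)
    rw [← Finset.sum_mul, ← Finset.mul_sum]
  refine (Finset.sum_le_sum h3).trans ?_
  rw [← Finset.mul_sum]
  apply mul_le_mul_of_nonneg_left (geom_le μ hμ0 hμ1 n)
  apply mul_nonneg hP0
  exact Finset.sum_nonneg (fun u _ => by linarith [hy u])

end

end Pool.Agent.K4H76.LR2
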